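import Pool.Agent.helper87.ArrD3.Facets

set_option autoImplicit false

/-!
# Edges of set families of VC dimension at most `d`, by down-shifting and Kruskal-Katona
-/

namespace Pool.Agent.helper57.AD

open Finset Pool.Agent.helper87.ArrD3

open scoped FinsetFamily

/-- The numerical heart: a simplicial complex on `m + 2` vertices with faces of size at most `d`
and `C(m+1,d)` faces has total face size at most `m C(m,d-1)`. -/
lemma ed_lower {n m d : ℕ} {D : Finset (Finset (Fin n))}
    (h : ∀ σ ∈ D, ∀ a ∈ σ, σ.erase a ∈ D) (hd : 0 < d)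
    (h3 : ∀ σ ∈ D, σ.card ≤ d) (hm : n = m + 2)
    (hcard : D.card = (m + 1).choose d) (hpos : 0 < (m + 1).choose d) :
    ed D ≤ m * m.choose (d - 1) := by
  classical
  have hlow : ∀ σ ∈ D, ∀ τ ⊆ σ, τ ∈ D := fun σ hσ τ hτ => lower_of_stable h _ σ hσ rfl τ hτ
  have hed : ed D = ∑ σ ∈ D, σ.card := by
    unfold ed
    have h1 : ∀ i : Fin n, (D.filter (fun σ => i ∈ σ ∧ σ.erase i ∈ D)).card =
        ∑ σ ∈ D, if i ∈ σ then 1 else 0 := by
      intro i
      rw [← card_filter]
      congr 1
      apply filter_congr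
      intro σ hσ
      exact ⟨fun h => h.1, fun hi => ⟨hi, h σ hσ i hi⟩⟩
    rw [sum_congr rfl (fun i _ => h1 i), sum_comm]
    apply sum_congr rfl
    intro σ _
    simp
  have hempty : ∅ ∈ D := by
    have hDne : D.Nonempty := by
      rw [← card_pos, hcard]; exact hpos
    obtain ⟨σ, hσ⟩ := hDne
    exact hlow σ hσ ∅ (empty_subset _)
  -- the loss
  set L := ∑ σ ∈ D, (d - σ.card) with hL
  have hsum : ∑ σ ∈ D, σ.card + L = d * (m + 1).choose d := by
    rw [hL, ← sum_add_distrib, ← hcard, mul_comm, ← smul_eq_mul, ← sum_const]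
    apply sum_congr rfl
    intro σ hσ
    have := h3 σ hσ
    omega
  have habs : d * (m + 1).choose d = (m + 1) * m.choose (d - 1) := by
    obtain ⟨k, rfl⟩ : ∃ k, d = k + 1 := ⟨d - 1, by omega⟩
    have h : (m + 1) * m.choose k = (m + 1).choose (k + 1) * (k + 1) :=
      Nat.add_one_mul_choose_eq m k
    rw [Nat.add_sub_cancel, h, mul_comm]
  -- the number of faces which are not of size `d`
  have hlt : (D.filter (fun σ => σ.card < d)).card ≤ L := by
    rw [hL, card_filter]
    apply sum_le_sum
    intro σ _
    split_ifs <;> omega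
  have hsplit : D.card = (D.filter (fun σ => σ.card = d)).card +
      (D.filter (fun σ => σ.card < d)).card := by
    rw [card_filter, card_filter, ← sum_add_distrib, card_eq_sum_ones]
    apply sum_congr rfl
    intro σ hσ
    have := h3 σ hσ
    split_ifs <;> omega
  have hmain : m.choose (d - 1) ≤ L := by
    by_contra hcon
    push Not at hcon
    by_cases hdm : d ≤ m
    · have hkk : (D.filter (fun σ => σ.card = d)).card < m.choose d := by
        by_contra hge
        push Not at hge
        have h1 := kruskal_katona_lovasz_form (n := n) (i := 1) (r := d) (k := m)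
          (𝒜 := D.filter (fun σ => σ.card = d)) hd hdm (by omega)
          (by intro σ hσ; exact (mem_filter.1 hσ).2) hge
        rw [Function.iterate_one] at h1
        have h2 : (∂ (D.filter (fun σ => σ.card = d))) ⊆ D.filter (fun σ => σ.card < d) := by
          intro τ hτ
          rw [mem_shadow_iff] at hτ
          obtain ⟨σ, hσ, a, ha, rfl⟩ := hτ
          rw [mem_filter] at hσ ⊢
          refine ⟨h σ hσ.1 a ha, ?_⟩
          rw [card_erase_of_mem ha, hσ.2]
          omega
        have h4 := card_le_card h2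
        omega
      have h5 : (m + 1).choose d = m.choose (d - 1) + m.choose d := by
        obtain ⟨k, rfl⟩ : ∃ k, d = k + 1 := ⟨d - 1, by omega⟩
        rw [Nat.choose_succ_succ, Nat.add_sub_cancel]
      omega
    · -- `m + 1 = d`
      have h6 : d ≤ m + 1 := by
        by_contra h7
        push Not at h7
        rw [Nat.choose_eq_zero_of_lt h7] at hpos
        omega
      have h7 : m = d - 1 := by omega
      rw [← h7, Nat.choose_self] at hcon
      have h8 : d - (∅ : Finset (Fin n)).card ≤ L := by
        rw [hL]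
        exact single_le_sum (f := fun σ : Finset (Fin n) => d - σ.card)
          (fun _ _ => Nat.zero_le _) hempty
      rw [card_empty] at h8
      omega
  rw [hed]
  have h9 : (m + 1) * m.choose (d - 1) = m * m.choose (d - 1) + m.choose (d - 1) := by ring
  omega

/-- **Edge bound**: a family of `C(n-1,d)` subsets of an `n`-set without shattered `d+1`-sets has
at most `(n-2) C(n-2,d-1)` edges. -/
theorem ed_le {n m d : ℕ} {F : Finset (Finset (Fin n))} (hd : 0 < d) (hm : n = m + 2)
    (hcard : F.card = (m + 1).choose d) (hpos : 0 < (m + 1).choose d)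
    (hsh : ∀ s, Sh F s → s.card ≤ d) : ed F ≤ m * m.choose (d - 1) := by
  obtain ⟨D, h1, h2, h4, h5⟩ := exists_lower _ F rfl
  refine h4.trans (ed_lower h1 hd (fun σ hσ => hsh σ (h5 σ ?_)) hm (h2.trans hcard) hpos)
  intro t ht
  exact ⟨t, lower_of_stable h1 _ σ hσ rfl t ht, inter_eq_right.2 ht⟩

/-- **The average number of facets of the bounded cells in `ℝ^d` is at most `2 d`.** -/
theorem sum_deg_le_two {n d : ℕ} (a : Arr (Fin n) d) (hd : 0 < d) (hn : d < n) :
    ∑ σ ∈ a.bcells, a.deg σ ≤ 2 * d * a.bcells.card := by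
  by_cases h1 : n = 1
  · omega
  obtain ⟨m, hm⟩ : ∃ m, n = m + 2 := ⟨n - 2, by omega⟩
  have h1 := a.sum_deg_le hd
  have hc : a.bcells.card = (m + 1).choose d := by
    rw [a.card_bcells, Fintype.card_fin, hm]; rfl
  have hpos : 0 < (m + 1).choose d := Nat.choose_pos (by omega)
  have h2 := ed_le (F := a.bcells) hd hm hc hpos (fun s hs => a.vc hs)
  rw [Fintype.card_fin] at h1
  have h3 : n - 2 = m := by omega
  rw [h3] at h1
  have habs : d * (m + 1).choose d = (m + 1) * m.choose (d - 1) := by
    obtain ⟨k, rfl⟩ : ∃ k, d = k + 1 := ⟨d - 1, by omega⟩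
    have h : (m + 1) * m.choose k = (m + 1).choose (k + 1) * (k + 1) :=
      Nat.add_one_mul_choose_eq m k
    rw [Nat.add_sub_cancel, h, mul_comm]
  rw [hc, mul_assoc, habs]
  refine h1.trans ?_
  have hn' : n * m.choose (d - 1) = (m + 2) * m.choose (d - 1) := by rw [hm]
  rw [hn']
  have h4 : (m + 2) * m.choose (d - 1) + m * m.choose (d - 1) =
      2 * ((m + 1) * m.choose (d - 1)) := by ring
  omega

end Pool.Agent.helper57.AD
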