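import Pool.Agent.helper57.AD.Final
import Pool.Agent.helper57.AD.Shift
import Pool.Agent.helper87.ArrD3.Main

set_option autoImplicit false

/-!
# Vertices of the bounded cells of a simple arrangement in dimension d
-/

namespace Pool.Agent.helper57.AD

open Finset Pool.Agent.helper87.ArrD3

/-- the closed cell as a simple polytope -/
def toSP {ι : Type} [Fintype ι] [DecidableEq ι] {d : ℕ} (a : Arr ι d) {τ : Finset ι}
    (h : τ ∈ a.bcells) : SP ι d where
  A i := Arr.sg τ i • a.A i
  c i := Arr.sg τ i * a.c i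
  hcard := a.hcard
  indep s hs r := by
    obtain ⟨x, hx, hu⟩ := a.indep s hs (fun i => Arr.sg τ i * r i)
    refine ⟨x, fun i hi => ?_, fun y hy => hu y fun i hi => ?_⟩
    · have := hx i hi
      simp only [LinearMap.smul_apply, smul_eq_mul, this]
      rw [← mul_assoc, Arr.sg_mul_self, one_mul]
    · have := hy i hi
      simp only [LinearMap.smul_apply, smul_eq_mul] at this
      rw [← this, ← mul_assoc, Arr.sg_mul_self, one_mul]
  gen s hs := by
    rintro ⟨x, hx⟩
    apply a.gen s hs
    refine ⟨x, fun i hi => ?_⟩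
    have h1 := hx i hi
    simp only [LinearMap.smul_apply, smul_eq_mul] at h1
    have h2 : Arr.sg τ i * (Arr.sg τ i * a.A i x + Arr.sg τ i * a.c i) = a.A i x + a.c i := by
      rw [← mul_add, ← mul_assoc, Arr.sg_mul_self, one_mul]
    rw [← h2, h1, mul_zero]
  bdd y hy := by
    apply (a.mem_bcells.1 h).2 y (by simp)
    intro i _
    exact hy i
  int := by
    obtain ⟨x, _, hx⟩ := (a.mem_bcells.1 h).1
    refine ⟨x, fun i => ?_⟩
    have := hx i (mem_univ i)
    unfold Arr.g at this
    rw [mul_add] at this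
    simpa using this

lemma toSP_g {ι : Type} [Fintype ι] [DecidableEq ι] {d : ℕ} (a : Arr ι d) {τ : Finset ι}
    (h : τ ∈ a.bcells) (i : ι) (x : Fin d → ℝ) : (toSP a h).g i x = Arr.sg τ i * a.g i x := by
  unfold SP.g toSP Arr.g
  simp only [LinearMap.smul_apply, smul_eq_mul]
  ring


end Pool.Agent.helper57.AD
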