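import Pool.Agent.helper57.AD.Lower

set_option autoImplicit false

/-!
# The cyclic arrangement: a lower bound for the average diameter
-/

namespace Pool.Agent.helper57.AD

open Finset Pool.Agent.helper87.ArrD3 Polynomial

/-- normals -/
def ca (n d : ℕ) (i : Fin n) (j : Fin d) : ℝ := ((i : ℕ) : ℝ) ^ (j : ℕ)
/-- right hand sides -/
def cb (n d : ℕ) (i : Fin n) : ℝ := - ((i : ℕ) : ℝ) ^ d

/-- the monic polynomial with the coefficient vector `x` -/
noncomputable def pol {d : ℕ} (x : Fin d → ℝ) : ℝ[X] :=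
  X ^ d + ∑ j : Fin d, C (x j) * X ^ (j : ℕ)

lemma low_degree {d : ℕ} (x : Fin d → ℝ) : (∑ j : Fin d, C (x j) * X ^ (j : ℕ) : ℝ[X]).degree < d := by
  exact degree_sum_fin_lt x

lemma pol_monic {d : ℕ} (x : Fin d → ℝ) : (pol x).Monic := monic_X_pow_add (low_degree x)

lemma pol_natDegree {d : ℕ} (x : Fin d → ℝ) : (pol x).natDegree = d := by
  have h : (pol x).degree = d := by
    unfold pol
    rw [degree_add_eq_left_of_degree_lt, degree_X_pow]
    rw [degree_X_pow]
    exact low_degree x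
  exact natDegree_eq_of_degree_eq_some h

lemma pol_eval {d : ℕ} (x : Fin d → ℝ) (t : ℝ) :
    (pol x).eval t = t ^ d + ∑ j : Fin d, t ^ (j : ℕ) * x j := by
  unfold pol
  rw [eval_add, eval_pow, eval_X, eval_finsetSum]
  congr 1
  refine sum_congr rfl fun j _ => ?_
  rw [eval_mul, eval_C, eval_pow, eval_X, mul_comm]

lemma exists_pol {d : ℕ} {q : ℝ[X]} (hq : q.Monic) (hd : q.natDegree = d) :
    ∃ x : Fin d → ℝ, pol x = q := by
  refine ⟨fun j => q.coeff j, ?_⟩
  unfold pol
  conv_rhs => rw [hq.as_sum, hd]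
  congr 1
  rw [← Fin.sum_univ_eq_sum_range (fun i => C (q.coeff i) * X ^ i) d]

lemma cg {n d : ℕ} (i : Fin n) (x : Fin d → ℝ) :
    ∑ j, ca n d i j * x j - cb n d i = (pol x).eval ((i : ℕ) : ℝ) := by
  rw [pol_eval]
  unfold ca cb
  ring

lemma cg' {n d : ℕ} (i : Fin n) (x : Fin d → ℝ) :
    ∑ j, ca n d i j * x j = cb n d i ↔ (pol x).eval ((i : ℕ) : ℝ) = 0 := by
  rw [← cg i x, sub_eq_zero]

/-- the product over a set of natural numbers -/
noncomputable def pr (T : Finset ℕ) (r : ℕ → ℝ) : ℝ[X] := ∏ g ∈ T, (X - C (r g))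

lemma pr_monic (T : Finset ℕ) (r : ℕ → ℝ) : (pr T r).Monic :=
  monic_prod_of_monic _ _ fun g _ => monic_X_sub_C (r g)

lemma pr_natDegree (T : Finset ℕ) (r : ℕ → ℝ) : (pr T r).natDegree = T.card := by
  unfold pr
  rw [natDegree_prod_of_monic _ _ fun g _ => monic_X_sub_C (r g)]
  simp

lemma pr_eval (T : Finset ℕ) (r : ℕ → ℝ) (t : ℝ) : (pr T r).eval t = ∏ g ∈ T, (t - r g) := by
  unfold pr
  rw [eval_prod]
  refine prod_congr rfl fun g _ => ?_
  rw [eval_sub, eval_X, eval_C]

/-- a monic polynomial of degree `d` with `d` distinct roots is the product -/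
lemma eq_pr {d : ℕ} (x : Fin d → ℝ) (T : Finset ℕ) (hT : T.card = d) (r : ℕ → ℝ)
    (hr : Set.InjOn r T) (h0 : ∀ g ∈ T, (pol x).eval (r g) = 0) : pol x = pr T r := by
  refine Polynomial.eq_of_degree_sub_lt_of_eval_index_eq T hr ?_ ?_
  · have h1 : (pol x).degree = (d : WithBot ℕ) := by
      rw [degree_eq_natDegree (pol_monic x).ne_zero, pol_natDegree]
    have h2 : (pr T r).degree = (d : WithBot ℕ) := by
      rw [degree_eq_natDegree (pr_monic T r).ne_zero, pr_natDegree, hT]
    have h3 := degree_sub_lt_left (h1.trans h2.symm) (pol_monic x).ne_zero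
      ((pol_monic x).leadingCoeff.trans (pr_monic T r).leadingCoeff.symm)
    rw [hT, ← h1]
    exact h3
  · intro g hg
    rw [h0 g hg, pr_eval]
    symm
    exact prod_eq_zero hg (sub_self _)

lemma c_h1 (n d : ℕ) : ∀ s : Finset (Fin n), s.card = d →
    ∃! x : Fin d → ℝ, ∀ i ∈ s, ∑ j, ca n d i j * x j = cb n d i := by
  intro s hs
  set T : Finset ℕ := s.map Fin.valEmbedding with hT
  have hTc : T.card = d := by rw [hT, card_map, hs]
  obtain ⟨x, hx⟩ := exists_pol (pr_monic T (fun g => (g : ℝ)))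
    ((pr_natDegree T _).trans hTc)
  have hmem : ∀ i ∈ s, (i : ℕ) ∈ T := by
    intro i hi
    rw [hT, mem_map]
    exact ⟨i, hi, rfl⟩
  refine ⟨x, ?_, ?_⟩
  · intro i hi
    rw [cg', hx, pr_eval]
    exact prod_eq_zero (hmem i hi) (sub_self _)
  · intro y hy
    have h1 : pol y = pr T (fun g => (g : ℝ)) := by
      refine eq_pr y T hTc _ (fun a _ b _ h => by exact_mod_cast h) ?_
      intro g hg
      rw [hT, mem_map] at hg
      obtain ⟨i, hi, rfl⟩ := hg
      exact (cg' i y).1 (hy i hi)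
    rw [← hx] at h1
    funext j
    have h2 := congrArg (fun q => q.coeff (j : ℕ)) h1
    have h3 : ∀ z : Fin d → ℝ, (pol z).coeff (j : ℕ) = z j := by
      intro z
      unfold pol
      rw [coeff_add, coeff_X_pow, if_neg (by have := j.2; omega), zero_add, finsetSum_coeff]
      rw [sum_eq_single j]
      · simp
      · intro b _ hb
        rw [coeff_C_mul_X_pow, if_neg]
        intro h
        exact hb (Fin.ext h.symm)
      · intro h
        exact absurd (mem_univ j) h
    simpa only [h3] using h2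

lemma c_h2 (n d : ℕ) : ∀ s : Finset (Fin n), s.card = d + 1 →
    ¬ ∃ x : Fin d → ℝ, ∀ i ∈ s, ∑ j, ca n d i j * x j = cb n d i := by
  rintro s hs ⟨x, hx⟩
  have h1 : pol x = 0 := by
    refine Polynomial.eq_zero_of_degree_lt_of_eval_index_eq_zero (s := s)
      (v := fun i : Fin n => ((i : ℕ) : ℝ)) ?_ ?_ ?_
    · intro a _ b _ h
      have h' : (((a : ℕ) : ℝ)) = ((b : ℕ) : ℝ) := h
      exact Fin.ext (by exact_mod_cast h')
    · rw [degree_eq_natDegree (pol_monic x).ne_zero, pol_natDegree, hs]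
      exact_mod_cast Nat.lt_succ_self d
    · intro i hi
      exact (cg' i x).1 (hx i hi)
  exact (pol_monic x).ne_zero h1

end Pool.Agent.helper57.AD
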