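import Pool.Agent.helper57.AD.Cyclic

set_option autoImplicit false

/-!
# The bounded cells of the cyclic arrangement
-/

namespace Pool.Agent.helper57.AD

open Finset Pool.Agent.helper87.ArrD3 Polynomial

/-- the sign vector of the cell with gap set `T` -/
def ST (n : ℕ) (T : Finset ℕ) : Finset (Fin n) :=
  univ.filter (fun i : Fin n => Even (T.filter (fun g => (i : ℕ) ≤ g)).card)

lemma mem_ST {n : ℕ} {T : Finset ℕ} {i : Fin n} :
    i ∈ ST n T ↔ Even (T.filter (fun g => (i : ℕ) ≤ g)).card := by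
  simp [ST]

lemma sg_ST {n : ℕ} (T : Finset ℕ) (i : Fin n) :
    Arr.sg (ST n T) i = ∏ g ∈ T, (if (i : ℕ) ≤ g then (-1 : ℝ) else 1) := by
  rw [prod_ite, prod_const, prod_const_one, mul_one]
  unfold Arr.sg
  by_cases h : Even (T.filter (fun g => (i : ℕ) ≤ g)).card
  · rw [if_pos (mem_ST.2 h), h.neg_one_pow]
  · rw [if_neg (fun hh => h (mem_ST.1 hh)), (Nat.not_even_iff_odd.1 h).neg_one_pow]

lemma sg_pr {n : ℕ} (T : Finset ℕ) (i : Fin n) (r : ℕ → ℝ)
    (hr : ∀ g ∈ T, (g : ℝ) ≤ r g ∧ r g ≤ g + 1) :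
    Arr.sg (ST n T) i * (pr T r).eval ((i : ℕ) : ℝ) = ∏ g ∈ T, |((i : ℕ) : ℝ) - r g| := by
  rw [sg_ST, pr_eval, ← prod_mul_distrib]
  refine prod_congr rfl fun g hg => ?_
  obtain ⟨h1, h2⟩ := hr g hg
  split_ifs with h
  · have h3 : ((i : ℕ) : ℝ) ≤ g := by exact_mod_cast h
    rw [abs_of_nonpos (by linarith)]
    ring
  · have h3 : (g : ℝ) + 1 ≤ ((i : ℕ) : ℝ) := by exact_mod_cast (by omega : g + 1 ≤ (i : ℕ))
    rw [abs_of_nonneg (by linarith), one_mul]

lemma sg_flip {n : ℕ} (T : Finset ℕ) (i j : Fin n) (hg : (i : ℕ) ∈ T) (hij : (j : ℕ) = i + 1) :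
    Arr.sg (ST n T) i = - Arr.sg (ST n T) j := by
  have h1 : T.filter (fun g => (i : ℕ) ≤ g) = insert (i : ℕ) (T.filter (fun g => (j : ℕ) ≤ g)) := by
    ext g
    rw [mem_insert, mem_filter, mem_filter]
    constructor
    · rintro ⟨h, h'⟩
      by_cases h2 : g = i
      · exact Or.inl h2
      · exact Or.inr ⟨h, by omega⟩
    · rintro (rfl | ⟨h, h'⟩)
      · exact ⟨hg, le_rfl⟩
      · exact ⟨h, by omega⟩
  have h2 : (T.filter (fun g => (i : ℕ) ≤ g)).card = (T.filter (fun g => (j : ℕ) ≤ g)).card + 1 := by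
    rw [h1, card_insert_of_notMem]
    rw [mem_filter]
    rintro ⟨_, h⟩
    omega
  have h3 : i ∈ ST n T ↔ ¬ j ∈ ST n T := by
    unfold ST
    rw [mem_filter, mem_filter]
    simp only [mem_univ, true_and]
    rw [h2, Nat.even_add_one]
  unfold Arr.sg
  by_cases h4 : j ∈ ST n T
  · rw [if_pos h4, if_neg (fun hh => h3.1 hh h4)]
  · rw [if_neg h4, if_pos (h3.2 h4)]
    norm_num

lemma ST_inj {n : ℕ} {T T' : Finset ℕ} (hT : T ⊆ range (n - 1)) (hT' : T' ⊆ range (n - 1))
    (h : ST n T = ST n T') : T = T' := by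
  have key : ∀ (T : Finset ℕ) (g : ℕ) (hg : g + 1 < n), g ∈ T ↔
      (Arr.sg (ST n T) ⟨g, by omega⟩ ≠ Arr.sg (ST n T) ⟨g + 1, hg⟩) := by
    intro T g hg
    constructor
    · intro h1
      rw [sg_flip T ⟨g, by omega⟩ ⟨g + 1, hg⟩ h1 rfl]
      unfold Arr.sg
      split_ifs <;> norm_num
    · intro h1
      by_contra h2
      apply h1
      rw [sg_ST, sg_ST]
      refine prod_congr rfl fun g' hg' => ?_
      have h3 : g' ≠ g := fun h => h2 (h ▸ hg')
      have h4 : g ≤ g' ↔ g + 1 ≤ g' := by omega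
      simp only [h4]
  ext g
  by_cases hg : g + 1 < n
  · rw [key T g hg, key T' g hg, h]
  · constructor
    · intro h1
      have := mem_range.1 (hT h1)
      omega
    · intro h1
      have := mem_range.1 (hT' h1)
      omega

section

variable {n d : ℕ} (hdn : d ≤ n)

/-- the cyclic arrangement -/
noncomputable abbrev cM : Arr (Fin n) d := mkArr hdn (ca n d) (cb n d) (c_h1 n d) (c_h2 n d)

lemma cM_g (i : Fin n) (x : Fin d → ℝ) : (cM hdn).g i x = (pol x).eval ((i : ℕ) : ℝ) := by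
  rw [mk_g, cg]

/-- the roots of the polynomials in a cell -/
lemma roots {T : Finset ℕ} (hT : T ⊆ range (n - 1)) (hc : T.card = d) {x : Fin d → ℝ}
    (hx : ∀ i, 0 < Arr.sg (ST n T) i * (cM hdn).g i x) :
    ∃ r : ℕ → ℝ, (∀ g ∈ T, (g : ℝ) < r g ∧ r g < g + 1) ∧ pol x = pr T r := by
  have h : ∀ g ∈ T, ∃ ρ : ℝ, (g : ℝ) < ρ ∧ ρ < g + 1 ∧ (pol x).eval ρ = 0 := by
    intro g hg
    have hgn : g + 1 < n := by have := mem_range.1 (hT hg); omega
    have h1 := hx ⟨g, by omega⟩
    have h2 := hx ⟨g + 1, hgn⟩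
    rw [sg_flip T ⟨g, by omega⟩ ⟨g + 1, hgn⟩ hg rfl, cM_g] at h1
    rw [cM_g] at h2
    have h3 : (((⟨g + 1, hgn⟩ : Fin n) : ℕ) : ℝ) = (g : ℝ) + 1 := by simp
    have h4 : (((⟨g, by omega⟩ : Fin n) : ℕ) : ℝ) = (g : ℝ) := by simp
    rw [h3] at h2
    rw [h4] at h1
    have hcont : ContinuousOn (fun t => (pol x).eval t) (Set.Icc (g : ℝ) (g + 1)) :=
      (pol x).continuous.continuousOn
    have hle : (g : ℝ) ≤ g + 1 := by linarith
    unfold Arr.sg at h1 h2
    split_ifs at h1 h2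
    · obtain ⟨ρ, hρ, hρ0⟩ := intermediate_value_Ioo hle hcont (show (0 : ℝ) ∈ Set.Ioo _ _ from
        ⟨by linarith, by linarith⟩)
      exact ⟨ρ, hρ.1, hρ.2, hρ0⟩
    · obtain ⟨ρ, hρ, hρ0⟩ := intermediate_value_Ioo' hle hcont (show (0 : ℝ) ∈ Set.Ioo _ _ from
        ⟨by linarith, by linarith⟩)
      exact ⟨ρ, hρ.1, hρ.2, hρ0⟩
  choose! r hr1 hr2 hr3 using h
  refine ⟨r, fun g hg => ⟨hr1 g hg, hr2 g hg⟩, eq_pr x T hc r ?_ hr3⟩
  intro a ha b hb hab
  have h1 := hr1 a ha
  have h2 := hr2 a ha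
  have h3 := hr1 b hb
  have h4 := hr2 b hb
  rw [hab] at h1 h2
  have h5 : (a : ℝ) < b + 1 := by linarith
  have h6 : (b : ℝ) < a + 1 := by linarith
  have h7 : a < b + 1 := by exact_mod_cast h5
  have h8 : b < a + 1 := by exact_mod_cast h6
  omega

lemma bound {T : Finset ℕ} (hT : T ⊆ range (n - 1)) (hc : T.card = d) {x : Fin d → ℝ}
    (hx : ∀ i, 0 < Arr.sg (ST n T) i * (cM hdn).g i x) (i : Fin n) :
    |(cM hdn).g i x| ≤ (n : ℝ) ^ d := by
  obtain ⟨r, hr, hpol⟩ := roots hdn hT hc hx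
  rw [cM_g, hpol, pr_eval, abs_prod, ← hc, ← prod_const]
  refine prod_le_prod (fun g _ => abs_nonneg _) fun g hg => ?_
  obtain ⟨h1, h2⟩ := hr g hg
  have h3 : g + 1 < n := by have := mem_range.1 (hT hg); omega
  have h4 : (g : ℝ) + 1 < n := by exact_mod_cast h3
  have h5 : ((i : ℕ) : ℝ) < n := by exact_mod_cast i.2
  have h6 : (0 : ℝ) ≤ ((i : ℕ) : ℝ) := Nat.cast_nonneg _
  have h7 : (0 : ℝ) ≤ (g : ℝ) := Nat.cast_nonneg _
  rw [abs_le]
  constructor <;> linarith

lemma ST_mem {T : Finset ℕ} (hT : T ⊆ range (n - 1)) (hc : T.card = d) :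
    ST n T ∈ (cM hdn).bcells := by
  rw [Arr.mem_bcells]
  obtain ⟨x, hx⟩ := exists_pol (pr_monic T (fun g => (g : ℝ) + 1/2)) ((pr_natDegree T _).trans hc)
  have hpos : ∀ i, 0 < Arr.sg (ST n T) i * (cM hdn).g i x := by
    intro i
    rw [cM_g, hx, sg_pr T i _ (fun g _ => ⟨by linarith, by linarith⟩)]
    refine prod_pos fun g _ => abs_pos.2 ?_
    intro h
    have h1 : 2 * ((i : ℕ) : ℝ) = 2 * (g : ℝ) + 1 := by linarith
    have h2 : 2 * (i : ℕ) = 2 * g + 1 := by exact_mod_cast h1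
    omega
  refine ⟨⟨x, by simp, fun i _ => hpos i⟩, ?_⟩
  intro y _ hy
  refine (cM hdn).zero_of (s := univ) (by rw [card_univ, Fintype.card_fin]; exact hdn) ?_
  intro i _
  have hb : ∀ t : ℝ, 0 ≤ t → |(cM hdn).g i x + t * (cM hdn).A i y| ≤ (n : ℝ) ^ d := by
    intro t ht
    rw [← Arr.g_add]
    refine bound hdn hT hc ?_ i
    intro k
    rw [Arr.g_add]
    have h1 := hpos k
    have h2 := mul_nonneg ht (hy k (mem_univ k))
    nlinarith
  by_contra hne
  have h1 := hb ((|(cM hdn).g i x| + (n : ℝ) ^ d + 1) / |(cM hdn).A i y|) (by positivity)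
  have h2 : |(|(cM hdn).g i x| + (n : ℝ) ^ d + 1) / |(cM hdn).A i y| * (cM hdn).A i y| =
      |(cM hdn).g i x| + (n : ℝ) ^ d + 1 := by
    rw [abs_mul, abs_div, abs_abs, abs_of_nonneg (by positivity : 0 ≤ |(cM hdn).g i x| + (n : ℝ) ^ d + 1)]
    field_simp
  have h3 := abs_sub_abs_le_abs_sub ((|(cM hdn).g i x| + (n : ℝ) ^ d + 1) / |(cM hdn).A i y| *
    (cM hdn).A i y) (-(cM hdn).g i x)
  rw [h2, abs_neg, sub_neg_eq_add, add_comm _ ((cM hdn).g i x)] at h3
  linarith

/-- the vertices with the roots at the left, respectively right ends of the gaps -/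
def vs (n : ℕ) (T : Finset ℕ) (e : ℕ) : Finset (Fin n) :=
  univ.filter (fun i : Fin n => ∃ g ∈ T, (i : ℕ) = g + e)

lemma vs_card {T : Finset ℕ} (hT : T ⊆ range (n - 1)) {e : ℕ} (he : e ≤ 1) :
    (vs n T e).card = T.card := by
  have h : ((vs n T e).image (fun i : Fin n => (i : ℕ))) = T.image (fun g => g + e) := by
    ext k
    rw [mem_image, mem_image]
    constructor
    · rintro ⟨i, hi, rfl⟩
      obtain ⟨g, hg, h⟩ := (mem_filter.1 hi).2
      exact ⟨g, hg, h.symm⟩
    · rintro ⟨g, hg, rfl⟩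
      have := mem_range.1 (hT hg)
      exact ⟨⟨g + e, by omega⟩, mem_filter.2 ⟨mem_univ _, g, hg, rfl⟩, rfl⟩
  rw [← card_image_of_injective (vs n T e) Fin.val_injective, h,
    card_image_of_injective _ (add_left_injective e)]

lemma vs_mem {T : Finset ℕ} (hT : T ⊆ range (n - 1)) (hc : T.card = d) {e : ℕ} (he : e ≤ 1)
    (hm : ST n T ∈ (cM hdn).bcells) : vs n T e ∈ (toSP (cM hdn) hm).Vx := by
  rw [SP.mem_Vx]
  have hcard : (vs n T e).card = d := (vs_card hT he).trans hc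
  refine ⟨hcard, ?_⟩
  obtain ⟨x, hx⟩ := exists_pol (pr_monic T (fun g => ((g + e : ℕ) : ℝ))) ((pr_natDegree T _).trans hc)
  have hg : ∀ i, (toSP (cM hdn) hm).g i x = ∏ g ∈ T, |((i : ℕ) : ℝ) - ((g + e : ℕ) : ℝ)| := by
    intro i
    rw [toSP_g, cM_g, hx, sg_pr]
    intro g _
    have h1 : (0 : ℝ) ≤ e := Nat.cast_nonneg _
    have h2 : (e : ℝ) ≤ 1 := by exact_mod_cast he
    push_cast
    constructor <;> linarith
  have hpt : x = (toSP (cM hdn) hm).pt (vs n T e) := by
    refine (toSP (cM hdn) hm).pt_unique hcard fun i hi => ?_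
    obtain ⟨g, hg', h⟩ := (mem_filter.1 hi).2
    rw [hg]
    refine prod_eq_zero hg' ?_
    rw [h, sub_self, abs_zero]
  rw [← hpt]
  intro i
  rw [hg]
  exact prod_nonneg fun g _ => abs_nonneg _

lemma vs_sdiff {T : Finset ℕ} (hT : T ⊆ range (n - 1)) :
    (T.filter (fun g => ∀ g' ∈ T, g ≠ g' + 1)).card ≤ (vs n T 0 \ vs n T 1).card := by
  have h : T.filter (fun g => ∀ g' ∈ T, g ≠ g' + 1) ⊆
      (vs n T 0 \ vs n T 1).image (fun i : Fin n => (i : ℕ)) := by
    intro g hg
    rw [mem_filter] at hg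
    rw [mem_image]
    have hgn := mem_range.1 (hT hg.1)
    refine ⟨⟨g, by omega⟩, ?_, rfl⟩
    rw [mem_sdiff]
    constructor
    · exact mem_filter.2 ⟨mem_univ _, g, hg.1, rfl⟩
    · intro h
      obtain ⟨g', hg', h'⟩ := (mem_filter.1 h).2
      exact hg.2 g' hg' h'
  exact (card_le_card h).trans card_image_le

/-- the diameter of a cell is at least the number of runs of its gap set -/
lemma diam_ge (hd : 0 < d) {T : Finset ℕ} (hT : T ⊆ range (n - 1)) (hc : T.card = d)
    (hm : ST n T ∈ (cM hdn).bcells) :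
    (T.filter (fun g => ∀ g' ∈ T, g ≠ g' + 1)).card ≤ (SimpleGraph.fromRel
    (fun v w : Set.extremePoints ℝ (toSP (cM hdn) hm).P =>
      IsExtreme ℝ (toSP (cM hdn) hm).P (segment ℝ (v : Fin d → ℝ) (w : Fin d → ℝ)))).diam :=
  (vs_sdiff hT).trans ((toSP (cM hdn) hm).le_diam hd (vs_mem hdn hT hc (Nat.zero_le 1) hm)
    (vs_mem hdn hT hc le_rfl hm))

end

/-- the number of subsets with a run starting at `g` -/
lemma card_start {m d g : ℕ} (hd : 0 < d) (hg : g < m) (hg0 : 0 < g) :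
    (m - 2).choose (d - 1) ≤ ((powersetCard d (range m)).filter
      (fun T => g ∈ T ∧ ∀ g' ∈ T, g ≠ g' + 1)).card := by
  have h1 : (((range m).erase g).erase (g - 1)).card = m - 2 := by
    rw [card_erase_of_mem, card_erase_of_mem (mem_range.2 hg), card_range]
    · omega
    · rw [mem_erase, mem_range]
      omega
  rw [← h1, ← card_powersetCard]
  refine card_le_card_of_injOn (insert g) ?_ ?_
  · intro T hT
    rw [mem_coe, mem_powersetCard] at hT
    have hgT : g ∉ T := fun h => by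
      have := hT.1 h
      simp at this
    rw [mem_coe, mem_filter, mem_powersetCard]
    refine ⟨⟨?_, ?_⟩, mem_insert_self _ _, ?_⟩
    · intro k hk
      rcases mem_insert.1 hk with rfl | hk
      · exact mem_range.2 hg
      · have := hT.1 hk
        rw [mem_erase, mem_erase] at this
        exact this.2.2
    · rw [card_insert_of_notMem hgT, hT.2]
      omega
    · intro g' hg' h
      rcases mem_insert.1 hg' with rfl | hg'
      · omega
      · have := hT.1 hg'
        rw [mem_erase] at this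
        omega
  · intro T hT T' hT' h
    rw [mem_coe, mem_powersetCard] at hT hT'
    have hgT : g ∉ T := fun h => by
      have := hT.1 h
      simp at this
    have hgT' : g ∉ T' := fun h => by
      have := hT'.1 h
      simp at this
    have h' : insert g T = insert g T' := h
    rw [← erase_insert hgT, h', erase_insert hgT']

lemma card_start_zero {m d : ℕ} (hd : 0 < d) (hm : 0 < m) :
    (m - 1).choose (d - 1) ≤ ((powersetCard d (range m)).filter
      (fun T => 0 ∈ T ∧ ∀ g' ∈ T, 0 ≠ g' + 1)).card := by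
  have h1 : ((range m).erase 0).card = m - 1 := by
    rw [card_erase_of_mem (mem_range.2 hm), card_range]
  rw [← h1, ← card_powersetCard]
  refine card_le_card_of_injOn (insert 0) ?_ ?_
  · intro T hT
    rw [mem_coe, mem_powersetCard] at hT
    have hgT : 0 ∉ T := fun h => by
      have := hT.1 h
      simp at this
    rw [mem_coe, mem_filter, mem_powersetCard]
    refine ⟨⟨?_, ?_⟩, mem_insert_self _ _, fun g' _ => by omega⟩
    · intro k hk
      rcases mem_insert.1 hk with rfl | hk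
      · exact mem_range.2 hm
      · have := hT.1 hk
        rw [mem_erase] at this
        exact this.2
    · rw [card_insert_of_notMem hgT, hT.2]
      omega
  · intro T hT T' hT' h
    rw [mem_coe, mem_powersetCard] at hT hT'
    have hgT : 0 ∉ T := fun h => by
      have := hT.1 h
      simp at this
    have hgT' : 0 ∉ T' := fun h => by
      have := hT'.1 h
      simp at this
    have h' : insert 0 T = insert 0 T' := h
    rw [← erase_insert hgT, h', erase_insert hgT']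

/-- the sum of the numbers of runs -/
lemma sum_runs {m d : ℕ} (hd : 0 < d) (hdm : d ≤ m) :
    (m + 1 - d) * (m - 1).choose (d - 1) ≤
      ∑ T ∈ powersetCard d (range m), (T.filter (fun g => ∀ g' ∈ T, g ≠ g' + 1)).card := by
  have h1 : ∑ T ∈ powersetCard d (range m), (T.filter (fun g => ∀ g' ∈ T, g ≠ g' + 1)).card =
      ∑ g ∈ range m, ((powersetCard d (range m)).filter
      (fun T => g ∈ T ∧ ∀ g' ∈ T, g ≠ g' + 1)).card := by
    have e1 : ∀ T ∈ powersetCard d (range m), (T.filter (fun g => ∀ g' ∈ T, g ≠ g' + 1)).card =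
        ∑ g ∈ range m, if (g ∈ T ∧ ∀ g' ∈ T, g ≠ g' + 1) then 1 else 0 := by
      intro T hT
      rw [← card_filter]
      congr 1
      ext g
      rw [mem_filter, mem_filter]
      constructor
      · rintro ⟨h, h'⟩
        exact ⟨(mem_powersetCard.1 hT).1 h, h, h'⟩
      · rintro ⟨_, h, h'⟩
        exact ⟨h, h'⟩
    rw [sum_congr rfl e1, sum_comm]
    refine sum_congr rfl fun g _ => ?_
    rw [card_filter]
  rw [h1]
  obtain ⟨k, rfl⟩ : ∃ k, m = k + 1 := ⟨m - 1, by omega⟩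
  rw [sum_range_succ']
  have h2 := card_start_zero (m := k + 1) hd (Nat.succ_pos k)
  have h3 : k * (k + 1 - 2).choose (d - 1) ≤ ∑ g ∈ range k, ((powersetCard d (range (k + 1))).filter
      (fun T => g + 1 ∈ T ∧ ∀ g' ∈ T, g + 1 ≠ g' + 1)).card := by
    have e2 : k * (k + 1 - 2).choose (d - 1) = ∑ _g ∈ range k, (k + 1 - 2).choose (d - 1) := by
      rw [sum_const, card_range, smul_eq_mul]
    rw [e2]
    refine sum_le_sum fun g hg => ?_
    have := mem_range.1 hg
    exact card_start hd (by omega) (Nat.succ_pos g)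
  have h4 : k * (k + 1 - 2).choose (d - 1) = (k + 1 - d) * k.choose (d - 1) := by
    rcases Nat.eq_zero_or_pos k with rfl | hk
    · have : d = 1 := by omega
      subst this
      simp
    · obtain ⟨l, rfl⟩ : ∃ l, k = l + 1 := ⟨k - 1, by omega⟩
      have h5 := Nat.choose_mul_succ_eq l (d - 1)
      have h6 : l + 1 + 1 - 2 = l := by omega
      have h7 : l + 1 + 1 - d = l + 1 - (d - 1) := by omega
      rw [h6, h7, mul_comm, h5, mul_comm]
  have h5 : (k + 1 + 1 - d) * (k + 1 - 1).choose (d - 1) =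
      (k + 1 - d) * k.choose (d - 1) + (k + 1 - 1).choose (d - 1) := by
    have h6 : k + 1 + 1 - d = (k + 1 - d) + 1 := by omega
    rw [h6, add_mul, one_mul, Nat.add_sub_cancel]
  rw [h5, ← h4]
  exact Nat.add_le_add h3 h2

end Pool.Agent.helper57.AD
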