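import Pool.Agent.helper57.AD.Shift

set_option autoImplicit false

/-!
# Cubes in set families
-/

namespace Pool.Agent.helper57.AD

open Finset Pool.Agent.helper87.ArrD3

open scoped FinsetFamily

section

variable {ι : Type} [Fintype ι] [DecidableEq ι]

/-- `F` contains a cube with the free coordinates `s`. -/
def SSh (F : Finset (Finset ι)) (s : Finset ι) : Prop :=
  ∃ ρ, Disjoint ρ s ∧ ∀ t ⊆ s, ρ ∪ t ∈ F

lemma ssh_comp {a : ι} {F : Finset (Finset ι)} {s : Finset ι} (h : SSh F s) :
    SSh (comp a F) s := by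
  obtain ⟨ρ, hρ, hF⟩ := h
  by_cases has : a ∈ s
  · have haρ : a ∉ ρ := fun h => (disjoint_left.1 hρ) h has
    refine ⟨ρ, hρ, fun t ht => ?_⟩
    by_cases hat : a ∈ t
    · have h1 : insert a (ρ ∪ t.erase a) = ρ ∪ t := by
        rw [← union_insert, insert_erase hat]
      have h2 : a ∉ ρ ∪ t.erase a := by
        rw [mem_union]; push Not; exact ⟨haρ, notMem_erase _ _⟩
      rw [← h1, mem_comp_insert h2, h1]
      exact ⟨hF t ht, hF _ ((erase_subset _ _).trans ht)⟩
    · have h2 : a ∉ ρ ∪ t := by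
        rw [mem_union]; push Not; exact ⟨haρ, hat⟩
      rw [mem_comp_of_notMem h2]
      exact Or.inl (hF t ht)
  · by_cases haρ : a ∈ ρ
    · refine ⟨ρ.erase a, disjoint_of_subset_left (erase_subset _ _) hρ, fun t ht => ?_⟩
      have h2 : a ∉ ρ.erase a ∪ t := by
        rw [mem_union]; push Not; exact ⟨notMem_erase _ _, fun h => has (ht h)⟩
      rw [mem_comp_of_notMem h2]
      right
      rw [← insert_union, insert_erase haρ]
      exact hF t ht
    · refine ⟨ρ, hρ, fun t ht => ?_⟩
      have h2 : a ∉ ρ ∪ t := by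
        rw [mem_union]; push Not; exact ⟨haρ, fun h => has (ht h)⟩
      rw [mem_comp_of_notMem h2]
      exact Or.inl (hF t ht)

lemma exists_lower' (N : ℕ) : ∀ F : Finset (Finset ι), wt F = N → ∃ D : Finset (Finset ι),
    (∀ σ ∈ D, ∀ a ∈ σ, σ.erase a ∈ D) ∧ D.card = F.card ∧ (∀ s, SSh F s → SSh D s) ∧
      ∀ s, Sh D s → Sh F s := by
  induction N using Nat.strong_induction_on with
  | _ N ih =>
    intro F hF
    by_cases hst : ∀ σ ∈ F, ∀ a ∈ σ, σ.erase a ∈ F
    · exact ⟨F, hst, rfl, fun _ h => h, fun _ h => h⟩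
    · push Not at hst
      obtain ⟨ρ, hρ, a, ha, hρ'⟩ := hst
      obtain ⟨D, h1, h2, h3, h4⟩ := ih (wt (comp a F)) (by rw [← hF]; exact wt_comp ha hρ hρ')
        (comp a F) rfl
      exact ⟨D, h1, by rw [h2, card_comp], fun s hs => h3 s (ssh_comp hs),
        fun s hs => sh_comp (h4 s hs)⟩

omit [Fintype ι] in
lemma mem_of_ssh {D : Finset (Finset ι)} (h : ∀ σ ∈ D, ∀ a ∈ σ, σ.erase a ∈ D) {s : Finset ι}
    (hs : SSh D s) : s ∈ D := by
  obtain ⟨ρ, _, hF⟩ := hs
  exact lower_of_stable h _ (ρ ∪ s) (hF s (Subset.refl _)) rfl s subset_union_right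

open Classical in
/-- A family has at least as many members as there are sets of free coordinates of its cubes. -/
theorem card_ssh_le (F : Finset (Finset ι)) : (univ.filter (fun s => SSh F s)).card ≤ F.card := by
  obtain ⟨D, h1, h2, h3, _⟩ := exists_lower' _ F rfl
  rw [← h2]
  apply card_le_card
  intro s hs
  rw [mem_filter] at hs
  exact mem_of_ssh h1 (h3 s hs.2)

end

/-- The number of the largest faces, by Kruskal-Katona. -/
lemma top_lower {n m r : ℕ} {D : Finset (Finset (Fin n))}
    (h : ∀ σ ∈ D, ∀ a ∈ σ, σ.erase a ∈ D) (hr : 0 < r) (hmn : m ≤ n)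
    (hcard : D.card = (m + 1).choose r) (hpos : 0 < (m + 1).choose r) :
    (D.filter (fun σ => σ.card = r)).card ≤ m.choose r := by
  classical
  have hlow : ∀ σ ∈ D, ∀ τ ⊆ σ, τ ∈ D := fun σ hσ τ hτ => lower_of_stable h _ σ hσ rfl τ hτ
  by_contra hcon
  push Not at hcon
  by_cases hrm : r ≤ m
  · have h1 := kruskal_katona_lovasz_form (n := n) (i := 1) (r := r) (k := m)
      (𝒜 := D.filter (fun σ => σ.card = r)) hr hrm hmn
      (by intro σ hσ; exact (mem_filter.1 hσ).2) hcon.le
    rw [Function.iterate_one] at h1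
    have h2 : (∂ (D.filter (fun σ => σ.card = r))) ⊆ D.filter (fun σ => ¬ σ.card = r) := by
      intro τ hτ
      rw [mem_shadow_iff] at hτ
      obtain ⟨σ, hσ, a, ha, rfl⟩ := hτ
      rw [mem_filter] at hσ ⊢
      refine ⟨h σ hσ.1 a ha, ?_⟩
      rw [card_erase_of_mem ha, hσ.2]
      omega
    have h4 := card_le_card h2
    have h5 : (m + 1).choose r = m.choose (r - 1) + m.choose r := by
      obtain ⟨k, rfl⟩ : ∃ k, r = k + 1 := ⟨r - 1, by omega⟩
      rw [Nat.choose_succ_succ, Nat.add_sub_cancel]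
    have h6 := card_filter_add_card_filter_not (s := D) (fun σ : Finset (Fin n) => σ.card = r)
    omega
  · have h6 : r = m + 1 := by
      by_contra h7
      rw [Nat.choose_eq_zero_of_lt (by omega)] at hpos
      omega
    rw [h6, Nat.choose_self] at hcard
    obtain ⟨σ0, hσ0⟩ := card_eq_one.1 hcard
    have hmem : σ0 ∈ D := by rw [hσ0]; exact mem_singleton_self _
    have hempty : (∅ : Finset (Fin n)) ∈ D := hlow _ hmem ∅ (empty_subset _)
    rw [hσ0, mem_singleton] at hempty
    have h8 : (D.filter (fun σ => σ.card = r)).card = 0 := by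
      rw [card_eq_zero, filter_eq_empty_iff, hσ0]
      intro σ hσ
      rw [mem_singleton] at hσ
      rw [hσ, ← hempty, card_empty]
      omega
    omega

open Classical in
/-- The number of cubes of dimension `r` in a family of `C(m+1,r)` sets without shattered
`r+1`-sets. -/
theorem top_ssh {n m r : ℕ} {F : Finset (Finset (Fin n))} (hr : 0 < r) (hmn : m ≤ n)
    (hcard : F.card = (m + 1).choose r) (hpos : 0 < (m + 1).choose r) :
    (univ.filter (fun s : Finset (Fin n) => s.card = r ∧ SSh F s)).card ≤ m.choose r := by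
  obtain ⟨D, h1, h2, h3, _⟩ := exists_lower' _ F rfl
  refine le_trans (card_le_card ?_) (top_lower h1 hr hmn (h2.trans hcard) hpos)
  intro s hs
  rw [mem_filter] at hs ⊢
  exact ⟨mem_of_ssh h1 (h3 s hs.2.2), hs.2.1⟩

end Pool.Agent.helper57.AD
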