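import Pool.Agent.helper57.AD.Count
import Pool.Agent.helper57.AD.Family

set_option autoImplicit false

/-!
# The number of vertices of the bounded cells of a simple arrangement in dimension d
-/

namespace Pool.Agent.helper57.AD

open Finset Pool.Agent.helper87.ArrD3

section

variable {ι : Type} [Fintype ι] [DecidableEq ι] {d : ℕ} (a : Arr ι d)

open Classical in
/-- the bounded cells of the arrangement induced on the flat of `S` -/
noncomputable def fb (S : Finset ι) : Finset (Finset ι) :=
  Sᶜ.powerset.filter (fun τ => a.NE S Sᶜ τ ∧ a.RT S Sᶜ τ)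

lemma mem_fb {S τ : Finset ι} : τ ∈ fb a S ↔ τ ⊆ Sᶜ ∧ a.NE S Sᶜ τ ∧ a.RT S Sᶜ τ := by
  classical
  unfold fb
  rw [mem_filter, mem_powerset]

lemma card_fb {S : Finset ι} (hS : S.card ≤ d) :
    (fb a S).card = (Fintype.card ι - S.card - 1).choose (d - S.card) := by
  have h1 := a.hcard
  have h2 : S.card + Sᶜ.card = Fintype.card ι := card_add_card_compl S
  have h := a.bc_eq Sᶜ S disjoint_compl_right hS (by omega)
  unfold Arr.bc at h
  have h3 : Sᶜ.card = Fintype.card ι - S.card := by omega
  rw [h3] at h
  exact h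

/-- the vertex on the hyperplanes of `s` -/
noncomputable def vp (s : Finset ι) : Fin d → ℝ :=
  if h : s.card = d then (a.indep s h (fun i => - a.c i)).exists.choose else 0

lemma g_vp {s : Finset ι} (h : s.card = d) {i : ι} (hi : i ∈ s) : a.g i (vp a s) = 0 := by
  have := (a.indep s h (fun i => - a.c i)).exists.choose_spec i hi
  unfold Arr.g vp
  rw [dif_pos h, this]; ring

lemma vp_unique {s : Finset ι} (h : s.card = d) {x : Fin d → ℝ} (hx : ∀ i ∈ s, a.g i x = 0) :
    x = vp a s := by
  refine (a.indep s h (fun i => - a.c i)).unique (fun i hi => ?_) (fun i hi => ?_)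
  · have := hx i hi; unfold Arr.g at this; linarith
  · have := g_vp a h hi; unfold Arr.g at this; linarith

lemma g_vp_ne {s : Finset ι} (h : s.card = d) {i : ι} (hi : i ∉ s) : a.g i (vp a s) ≠ 0 := by
  intro h0
  apply a.gen (insert i s) (by rw [card_insert_of_notMem hi, h])
  refine ⟨vp a s, fun j hj => ?_⟩
  rcases mem_insert.1 hj with rfl | hj
  · exact h0
  · exact g_vp a h hj

open Classical in
/-- the signs at the vertex `s` -/
noncomputable def ps (s : Finset ι) : Finset ι :=
  univ.filter (fun i => i ∉ s ∧ 0 < a.g i (vp a s))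

lemma mem_ps {s : Finset ι} {i : ι} : i ∈ ps a s ↔ i ∉ s ∧ 0 < a.g i (vp a s) := by
  unfold ps
  simp

lemma disj_ps (s : Finset ι) : Disjoint (ps a s) s := by
  rw [disjoint_left]
  intro i hi
  exact ((mem_ps a).1 hi).1

/-- the vertices of a bounded cell -/
lemma mem_Vx_iff {τ : Finset ι} (h : τ ∈ a.bcells) {s : Finset ι} :
    s ∈ (toSP a h).Vx ↔ s.card = d ∧ τ \ s = ps a s := by
  rw [SP.mem_Vx]
  refine and_congr_right fun hs => ?_
  have hpt : (toSP a h).pt s = vp a s := by
    apply vp_unique a hs
    intro i hi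
    have h1 := (toSP a h).g_pt hs hi
    rw [toSP_g] at h1
    have h2 : Arr.sg τ i * (Arr.sg τ i * a.g i ((toSP a h).pt s)) = a.g i ((toSP a h).pt s) := by
      rw [← mul_assoc, Arr.sg_mul_self, one_mul]
    rw [← h2, h1, mul_zero]
  rw [hpt]
  constructor
  · intro hP
    ext i
    rw [mem_sdiff, mem_ps]
    constructor
    · rintro ⟨h1, h2⟩
      refine ⟨h2, ?_⟩
      have h3 := hP i
      rw [toSP_g] at h3
      unfold Arr.sg at h3
      rw [if_pos h1, one_mul] at h3
      exact lt_of_le_of_ne h3 (Ne.symm (g_vp_ne a hs h2))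
    · rintro ⟨h1, h2⟩
      refine ⟨?_, h1⟩
      by_contra h3
      have h4 := hP i
      rw [toSP_g] at h4
      unfold Arr.sg at h4
      rw [if_neg h3] at h4
      linarith
  · intro heq i
    rw [toSP_g]
    by_cases hi : i ∈ s
    · rw [g_vp a hs hi, mul_zero]
    · unfold Arr.sg
      split_ifs with h1
      · have h2 : i ∈ ps a s := by
          rw [← heq, mem_sdiff]; exact ⟨h1, hi⟩
        rw [one_mul]
        exact ((mem_ps a).1 h2).2.le
      · have h2 : ¬ 0 < a.g i (vp a s) := by
          intro h3
          have h4 : i ∈ ps a s := (mem_ps a).2 ⟨hi, h3⟩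
          rw [← heq, mem_sdiff] at h4
          exact h1 h4.1
        push Not at h2
        linarith

/-- the signs at a vertex -/
lemma sg_ps_union {s t : Finset ι} (hs : s.card = d) (hts : t ⊆ s) {i : ι} (hi : i ∉ s) :
    0 < Arr.sg (ps a s ∪ t) i * a.g i (vp a s) := by
  unfold Arr.sg
  split_ifs with h1
  · rw [mem_union] at h1
    rcases h1 with h1 | h1
    · rw [one_mul]; exact ((mem_ps a).1 h1).2
    · exact absurd (hts h1) hi
  · have h2 : ¬ 0 < a.g i (vp a s) := by
      intro h3
      exact h1 (mem_union_left _ ((mem_ps a).2 ⟨hi, h3⟩))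
    have h3 := g_vp_ne a hs hi
    push Not at h2
    have h4 : a.g i (vp a s) < 0 := lt_of_le_of_ne h2 h3
    linarith

/-- the faces at a vertex are nonempty -/
lemma ne_at {s S t : Finset ι} (hs : s.card = d) (hSs : S ⊆ s) (ht : t ⊆ s \ S) :
    a.NE S Sᶜ (ps a s ∪ t) := by
  classical
  have hts : t ⊆ s := ht.trans sdiff_subset
  obtain ⟨v, hv, _⟩ := a.indep s hs (fun i => if i ∈ S then 0 else if i ∈ t then 1 else -1)
  obtain ⟨r, hr, hr2⟩ := a.exists_small (E := univ \ s) (τ := ps a s ∪ t) (x := vp a s)
    (fun i hi => sg_ps_union a hs hts (mem_sdiff.1 hi).2) v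
  refine ⟨vp a s + r • v, fun i hi => ?_, fun i hi => ?_⟩
  · rw [Arr.g_add, g_vp a hs (hSs hi), hv i (hSs hi), if_pos hi]
    ring
  · rw [mem_compl] at hi
    by_cases his : i ∈ s
    · rw [Arr.g_add, g_vp a hs his, hv i his, if_neg hi]
      unfold Arr.sg
      by_cases hit : i ∈ t
      · rw [if_pos hit, if_pos (mem_union_right _ hit)]
        linarith
      · have h1 : i ∉ ps a s ∪ t := by
          rw [mem_union]; push Not
          exact ⟨fun h => ((mem_ps a).1 h).1 his, hit⟩
        rw [if_neg hit, if_neg h1]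
        linarith
    · exact hr2 i (mem_sdiff.2 ⟨mem_univ _, his⟩)

/-- all faces at the vertex `s` in the flat of `S` are bounded -/
def FS (S s : Finset ι) : Prop := ∀ t ⊆ s \ S, a.RT S Sᶜ (ps a s ∪ t)

/-- passing from a face to the cells around it -/
lemma rt_restrict {S s t t' : Finset ι} (ht : t' ⊆ S)
    (h : a.RT ∅ univ (ps a s ∪ (t ∪ t'))) : a.RT S Sᶜ (ps a s ∪ t) := by
  intro y hy1 hy2
  apply h y (by simp)
  intro i _
  by_cases hi : i ∈ S
  · rw [hy1 i hi, mul_zero]
  · have h1 := hy2 i (mem_compl.2 hi)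
    have h2 : Arr.sg (ps a s ∪ (t ∪ t')) i = Arr.sg (ps a s ∪ t) i := by
      have h3 : i ∈ ps a s ∪ (t ∪ t') ↔ i ∈ ps a s ∪ t := by
        simp only [mem_union]
        constructor
        · rintro (h | h | h)
          · exact Or.inl h
          · exact Or.inr h
          · exact absurd (ht h) hi
        · rintro (h | h)
          · exact Or.inl h
          · exact Or.inr (Or.inl h)
      unfold Arr.sg
      by_cases h4 : i ∈ ps a s ∪ t
      · rw [if_pos h4, if_pos (h3.2 h4)]
      · rw [if_neg h4, if_neg (fun h => h4 (h3.1 h))]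
    rw [h2]
    exact h1

open Classical in
/-- the number of bounded cells at a vertex -/
lemma cells_at_le {s : Finset ι} (hs : s.card = d) :
    (a.bcells.filter (fun τ => τ \ s = ps a s)).card ≤
      (s.powerset.filter (fun S => FS a S s)).card := by
  -- the bounded and the unbounded cells at the vertex
  set B := s.powerset.filter (fun t => ps a s ∪ t ∈ a.bcells) with hB
  set U := s.powerset.filter (fun t => ¬ ps a s ∪ t ∈ a.bcells) with hU
  have h1 : (a.bcells.filter (fun τ => τ \ s = ps a s)).card ≤ B.card := by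
    apply card_le_card_of_injOn (fun τ => τ ∩ s)
    · intro τ hτ
      rw [mem_coe, mem_filter] at hτ
      rw [mem_coe, hB, mem_filter, mem_powerset]
      refine ⟨inter_subset_right, ?_⟩
      have h2 : ps a s ∪ τ ∩ s = τ := by
        rw [← hτ.2, sdiff_union_inter]
      rw [h2]
      exact hτ.1
    · intro τ hτ τ' hτ' heq
      rw [mem_coe, mem_filter] at hτ hτ'
      simp only at heq
      rw [← sdiff_union_inter τ s, ← sdiff_union_inter τ' s, hτ.2, hτ'.2, heq]
  have h2 : B.card + U.card = 2 ^ d := by
    rw [hB, hU, card_filter_add_card_filter_not, card_powerset, hs]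
  have h3 := card_ssh_le U
  have h4 : (s.powerset.filter (fun S => ¬ FS a S s)).card ≤
      (univ.filter (fun S => SSh U S)).card := by
    apply card_le_card
    intro S hS
    rw [mem_filter, mem_powerset] at hS
    rw [mem_filter]
    refine ⟨mem_univ _, ?_⟩
    obtain ⟨hSs, hnot⟩ := hS
    unfold FS at hnot
    push Not at hnot
    obtain ⟨t, ht, hrt⟩ := hnot
    refine ⟨t, ?_, fun t' ht' => ?_⟩
    · rw [disjoint_left]
      intro i hi hiS
      exact (mem_sdiff.1 (ht hi)).2 hiS
    · rw [hU, mem_filter, mem_powerset]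
      refine ⟨union_subset (ht.trans sdiff_subset) (ht'.trans hSs), fun hb => hrt ?_⟩
      exact rt_restrict a ht' (a.mem_bcells.1 hb).2
  have h5 : (s.powerset.filter (fun S => FS a S s)).card +
      (s.powerset.filter (fun S => ¬ FS a S s)).card = 2 ^ d := by
    rw [card_filter_add_card_filter_not, card_powerset, hs]
  omega

end

section

variable {n d : ℕ} (a : Arr (Fin n) d)

open Classical in
/-- the number of surrounded vertices of a flat -/
lemma card_FS_le (hdn : d < n) {S : Finset (Fin n)} (hS : S.card ≤ d) :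
    (univ.filter (fun s : Finset (Fin n) => s.card = d ∧ S ⊆ s ∧ FS a S s)).card ≤
      (n - S.card - 2).choose (d - S.card) := by
  rcases hS.lt_or_eq with hlt | heq
  · have hr : 0 < d - S.card := by omega
    have hm : n - S.card - 1 = (n - S.card - 2) + 1 := by omega
    have hcard : (fb a S).card = (n - S.card - 2 + 1).choose (d - S.card) := by
      rw [card_fb a hS, Fintype.card_fin, hm]
    refine le_trans ?_ (top_ssh hr (by omega) hcard (Nat.choose_pos (by omega)))
    apply card_le_card_of_injOn (fun s => s \ S)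
    · intro s hs
      rw [mem_coe, mem_filter] at hs
      obtain ⟨_, hsd, hSs, hFS⟩ := hs
      rw [mem_coe, mem_filter]
      refine ⟨mem_univ _, ?_, ps a s, ?_, fun t ht => ?_⟩
      · rw [card_sdiff_of_subset hSs, hsd]
      · exact disjoint_of_subset_right sdiff_subset (disj_ps a s)
      · rw [mem_fb]
        refine ⟨?_, ne_at a hsd hSs ht, hFS t ht⟩
        intro i hi
        rw [mem_compl]
        rcases mem_union.1 hi with h | h
        · exact fun hiS => ((mem_ps a).1 h).1 (hSs hiS)
        · exact (mem_sdiff.1 (ht h)).2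
    · intro s hs s' hs' heq
      rw [mem_coe, mem_filter] at hs hs'
      simp only at heq
      rw [← sdiff_union_of_subset hs.2.2.1, ← sdiff_union_of_subset hs'.2.2.1, heq]
  · rw [heq, Nat.sub_self, Nat.choose_zero_right]
    rw [← card_singleton S]
    apply card_le_card
    intro s hs
    rw [mem_filter] at hs
    rw [mem_singleton]
    exact (eq_of_subset_of_card_le hs.2.2.1 (by rw [hs.2.1, heq])).symm

/-- the total number of pairs (bounded cell, vertex) -/
theorem sum_vertices_le (hdn : d < n) :
    ∑ τ ∈ a.bcells.attach, (toSP a τ.2).Vx.card ≤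
      ∑ k ∈ range (d + 1), n.choose k * (n - k - 2).choose (d - k) := by
  classical
  have h1 : ∑ τ ∈ a.bcells.attach, (toSP a τ.2).Vx.card =
      ∑ τ ∈ a.bcells, ∑ s ∈ powersetCard d univ, if τ \ s = ps a s then 1 else 0 := by
    rw [← sum_attach a.bcells (fun τ => ∑ s ∈ powersetCard d univ,
      if τ \ s = ps a s then 1 else 0)]
    apply sum_congr rfl
    intro τ _
    rw [← card_filter]
    congr 1
    ext s
    rw [mem_Vx_iff, mem_filter, mem_powersetCard]
    simp
  have h2 : ∑ s ∈ powersetCard d (univ : Finset (Fin n)),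
      ∑ τ ∈ a.bcells, (if τ \ s = ps a s then 1 else 0) ≤
      ∑ s ∈ powersetCard d (univ : Finset (Fin n)),
        ∑ S : Finset (Fin n), if (S ⊆ s ∧ FS a S s) then 1 else 0 := by
    apply sum_le_sum
    intro s hs
    rw [mem_powersetCard] at hs
    rw [← card_filter, ← card_filter]
    refine (cells_at_le a hs.2).trans (card_le_card ?_)
    intro S hS
    rw [mem_filter, mem_powerset] at hS
    rw [mem_filter]
    exact ⟨mem_univ _, hS⟩
  have h3 : ∑ S : Finset (Fin n), ∑ s ∈ powersetCard d (univ : Finset (Fin n)),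
      (if (S ⊆ s ∧ FS a S s) then 1 else 0) ≤
      ∑ S : Finset (Fin n), if S.card ≤ d then (n - S.card - 2).choose (d - S.card) else 0 := by
    apply sum_le_sum
    intro S _
    rw [← card_filter]
    split_ifs with hS
    · refine le_trans (card_le_card ?_) (card_FS_le a hdn hS)
      intro s hs
      rw [mem_filter, mem_powersetCard] at hs
      rw [mem_filter]
      exact ⟨mem_univ _, hs.1.2, hs.2⟩
    · rw [Nat.le_zero, card_eq_zero, filter_eq_empty_iff]
      intro s hs h
      rw [mem_powersetCard] at hs
      have := card_le_card h.1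
      omega
  rw [h1, sum_comm]
  refine h2.trans ?_
  rw [sum_comm]
  refine h3.trans (le_of_eq ?_)
  rw [← sum_filter]
  have h4 : (univ.filter (fun S : Finset (Fin n) => S.card ≤ d)) =
      (range (d + 1)).biUnion (fun k => powersetCard k univ) := by
    ext S
    rw [mem_filter, mem_biUnion]
    constructor
    · rintro ⟨_, h⟩
      exact ⟨S.card, mem_range.2 (by omega), mem_powersetCard.2 ⟨subset_univ _, rfl⟩⟩
    · rintro ⟨k, hk, h⟩
      rw [mem_range] at hk
      rw [mem_powersetCard] at h
      exact ⟨mem_univ _, by omega⟩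
  rw [h4, sum_biUnion]
  · apply sum_congr rfl
    intro k _
    have h5 : ∀ S ∈ powersetCard k (univ : Finset (Fin n)),
        (n - S.card - 2).choose (d - S.card) = (n - k - 2).choose (d - k) := by
      intro S hS
      rw [(mem_powersetCard.1 hS).2]
    rw [sum_congr rfl h5, sum_const, card_powersetCard, card_univ, Fintype.card_fin, smul_eq_mul]
  · intro k _ l _ hkl
    rw [Function.onFun, disjoint_left]
    intro S h5 h6
    rw [mem_powersetCard] at h5 h6
    exact hkl (h5.2.symm.trans h6.2)

end

end Pool.Agent.helper57.AD
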