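import Pool.Agent.helper57.AD.Main

set_option autoImplicit false

/-!
# A lower bound for the diameter of a simple polytope
-/

namespace Pool.Agent.helper57.AD

open Finset Pool.Agent.helper87.ArrD3

namespace SP

variable {ι : Type} [Fintype ι] [DecidableEq ι] {d : ℕ} (p : SP ι d)

/-- an extreme segment between two vertices lies on `d - 1` of the hyperplanes -/
lemma sdiff_card_le_one {s t : Finset ι} (hs : s ∈ p.Vx) (ht : t ∈ p.Vx)
    (h : IsExtreme ℝ p.P (segment ℝ (p.pt s) (p.pt t))) : (s \ t).card ≤ 1 := by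
  by_contra hcon
  push Not at hcon
  obtain ⟨k, hk, k', hk', hne⟩ := one_lt_card.1 hcon
  rw [mem_sdiff] at hk hk'
  obtain ⟨hsc, hsP⟩ := p.mem_Vx.1 hs
  obtain ⟨htc, htP⟩ := p.mem_Vx.1 ht
  set u := p.pt s with hu
  set v := p.pt t with hv
  set m : Fin d → ℝ := (1/2 : ℝ) • u + (1/2 : ℝ) • v with hm
  have hgm : ∀ i, p.g i m = (1/2) * p.g i u + (1/2) * p.g i v := by
    intro i
    rw [hm]
    simp only [g, map_add, map_smul, smul_eq_mul]
    ring
  set w := p.dv s k with hw
  -- the midpoint plus or minus a small multiple of `w` is in the polytope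
  have hsmall : ∃ r : ℝ, 0 < r ∧ ∀ i, 0 ≤ p.g i m + r * p.A i w ∧ 0 ≤ p.g i m - r * p.A i w := by
    have hi : ∀ i : ι, ∃ r : ℝ, 0 < r ∧ ∀ r', 0 ≤ r' → r' ≤ r →
        0 ≤ p.g i m + r' * p.A i w ∧ 0 ≤ p.g i m - r' * p.A i w := by
      intro i
      by_cases hz : p.g i m = 0
      · -- then `i` is in `s ∩ t`
        have h1 := hsP i
        have h2 := htP i
        have h3 : p.g i u = 0 := by
          have := hgm i
          rw [hz] at this
          change 0 ≤ p.g i u at h1
          change 0 ≤ p.g i v at h2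
          linarith
        have h4 : p.g i v = 0 := by
          have := hgm i
          rw [hz, h3] at this
          linarith
        have h5 : i ∈ s := (p.g_eq_zero_iff hs).1 h3
        have h6 : i ∈ t := (p.g_eq_zero_iff ht).1 h4
        have h7 : p.A i w = 0 := by
          rw [hw, p.A_dv hsc h5 k, if_neg]
          rintro rfl
          exact hk.2 h6
        refine ⟨1, one_pos, fun r' _ _ => ?_⟩
        rw [hz, h7]
        simp
      · have h0 : 0 < p.g i m := by
          refine lt_of_le_of_ne ?_ (Ne.symm hz)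
          rw [hgm]
          have h1 : 0 ≤ p.g i u := hsP i
          have h2 : 0 ≤ p.g i v := htP i
          linarith
        refine ⟨p.g i m / (|p.A i w| + 1), by positivity, fun r' h1 h2 => ?_⟩
        have h3 : r' * |p.A i w| ≤ p.g i m := by
          have h4 : r' * (|p.A i w| + 1) ≤ p.g i m := by
            rw [le_div_iff₀ (by positivity)] at h2
            exact h2
          nlinarith [abs_nonneg (p.A i w)]
        have h4 : |r' * p.A i w| ≤ p.g i m := by
          rw [abs_mul, abs_of_nonneg h1]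
          exact h3
        have h5 := abs_le.1 h4
        constructor <;> linarith [h5.1, h5.2]
    choose r hr0 hr using hi
    have hne' : (univ : Finset ι).Nonempty := ⟨k, mem_univ _⟩
    refine ⟨univ.inf' hne' r, ?_, fun i => ?_⟩
    · rw [lt_inf'_iff]
      exact fun i _ => hr0 i
    · refine hr i _ ?_ (inf'_le _ (mem_univ i))
      refine le_of_lt ?_
      rw [lt_inf'_iff]
      exact fun i _ => hr0 i
  obtain ⟨r, hr0, hr⟩ := hsmall
  have hplus : m + r • w ∈ p.P := by
    intro i
    rw [p.g_add]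
    exact (hr i).1
  have hminus : m + (-r) • w ∈ p.P := by
    intro i
    rw [p.g_add]
    have := (hr i).2
    linarith
  have hmseg : m ∈ segment ℝ u v := by
    refine ⟨1/2, 1/2, by norm_num, by norm_num, by norm_num, rfl⟩
  have hopen : m ∈ openSegment ℝ (m + r • w) (m + (-r) • w) := by
    refine ⟨1/2, 1/2, by norm_num, by norm_num, by norm_num, ?_⟩
    ext j
    simp only [Pi.add_apply, Pi.smul_apply, smul_eq_mul]
    ring
  have hin : m + r • w ∈ segment ℝ u v := h.2 hplus hminus hmseg hopen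
  obtain ⟨α, β, hα, hβ, hαβ, hcomb⟩ := hin
  -- evaluate `g k'` and `g k`
  have hgc : ∀ i, p.g i (m + r • w) = α * p.g i u + β * p.g i v := by
    intro i
    rw [← hcomb]
    simp only [g, map_add, map_smul, smul_eq_mul]
    have : p.c i = α * p.c i + β * p.c i := by rw [← add_mul, hαβ, one_mul]
    linarith
  have huk' : p.g k' u = 0 := p.g_pt hsc hk'.1
  have hvk' : 0 < p.g k' v := p.pos_of_notMem ht hk'.2
  have huk : p.g k u = 0 := p.g_pt hsc hk.1
  have hvk : 0 < p.g k v := p.pos_of_notMem ht hk.2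
  have e1 := hgc k'
  rw [p.g_add, hgm, huk', hw, p.A_dv hsc hk'.1 k, if_neg hne.symm] at e1
  have e2 : β = 1/2 := by
    have : (β - 1/2) * p.g k' v = 0 := by linarith
    rcases mul_eq_zero.1 this with h5 | h5
    · linarith
    · exact absurd h5 hvk'.ne'
  have e3 := hgc k
  rw [p.g_add, hgm, huk, hw, p.A_dv hsc hk.1 k, if_pos rfl, e2] at e3
  linarith

/-- the graph of the statement -/
def H : SimpleGraph (Set.extremePoints ℝ p.P) := SimpleGraph.fromRel
    (fun v w : Set.extremePoints ℝ p.P =>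
      IsExtreme ℝ p.P (segment ℝ (v : Fin d → ℝ) (w : Fin d → ℝ)))

lemma walk_le {x y : Set.extremePoints ℝ p.P} (w : p.H.Walk x y) : ∀ s ∈ p.Vx, ∀ t ∈ p.Vx,
    p.pt s = x → p.pt t = y → (s \ t).card ≤ w.length := by
  induction w with
  | nil =>
    intro s hs t ht h1 h2
    have : s = t := p.pt_inj hs ht (h1.trans h2.symm)
    subst this
    simp
  | cons hadj w ih =>
    rename_i x y z
    intro s hs t ht h1 h2
    obtain ⟨r, hr, hry⟩ := p.exists_of_extreme y.2
    have h3 := ih r hr t ht hry h2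
    have h4 : (s \ r).card ≤ 1 := by
      unfold H at hadj
      rw [SimpleGraph.fromRel_adj] at hadj
      rcases hadj.2 with h5 | h5
      · rw [← h1, ← hry] at h5
        exact p.sdiff_card_le_one hs hr h5
      · rw [← h1, ← hry] at h5
        have h6 := p.sdiff_card_le_one hr hs h5
        have h7 : (s \ r).card = (r \ s).card := by
          have := card_sdiff_add_card_inter s r
          have h8 := card_sdiff_add_card_inter r s
          rw [inter_comm] at h8
          have h9 := (p.mem_Vx.1 hs).1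
          have h10 := (p.mem_Vx.1 hr).1
          omega
        omega
    have h5 : s \ t ⊆ (s \ r) ∪ (r \ t) := by
      intro i hi
      rw [mem_sdiff] at hi
      rw [mem_union, mem_sdiff, mem_sdiff]
      by_cases hir : i ∈ r
      · exact Or.inr ⟨hir, hi.2⟩
      · exact Or.inl ⟨hi.1, hir⟩
    have h6 := (card_le_card h5).trans (card_union_le _ _)
    rw [SimpleGraph.Walk.length_cons]
    omega

theorem le_diam (hd : 0 < d) {s t : Finset ι} (hs : s ∈ p.Vx) (ht : t ∈ p.Vx) :
    (s \ t).card ≤ (SimpleGraph.fromRel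
    (fun v w : Set.extremePoints ℝ p.P =>
      IsExtreme ℝ p.P (segment ℝ (v : Fin d → ℝ) (w : Fin d → ℝ)))).diam := by
  classical
  change (s \ t).card ≤ p.H.diam
  let f : {s // s ∈ p.Vx} → Set.extremePoints ℝ p.P := fun s => ⟨p.pt s.1, p.pt_mem_extreme s.2⟩
  have hadj : ∀ s t : {s // s ∈ p.Vx}, p.G.Adj s t → p.H.Adj (f s) (f t) := by
    intro s t hst
    unfold H
    rw [SimpleGraph.fromRel_adj]
    have h1 : Adj d s.1 t.1 := hst
    refine ⟨?_, Or.inl (p.segment_extreme s.2 t.2 h1)⟩
    intro h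
    apply h1.1
    exact p.pt_inj s.2 t.2 (congrArg Subtype.val h)
  let F : p.G →g p.H := ⟨f, fun {s t} h => hadj s t h⟩
  have hsurj : ∀ z : Set.extremePoints ℝ p.P, ∃ s, f s = z := by
    intro z
    obtain ⟨s, hs, h⟩ := p.exists_of_extreme z.2
    exact ⟨⟨s, hs⟩, Subtype.ext h⟩
  have hfin : Finite (Set.extremePoints ℝ p.P) := Finite.of_surjective f hsurj
  have hne : Nonempty (Set.extremePoints ℝ p.P) := ⟨f ⟨s, hs⟩⟩
  have hconn : p.H.Connected := by
    refine ⟨fun x y => ?_⟩
    obtain ⟨s, rfl⟩ := hsurj x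
    obtain ⟨t, rfl⟩ := hsurj y
    exact (p.preconnected hd s t).map F
  have hdiam : p.H.dist (f ⟨s, hs⟩) (f ⟨t, ht⟩) ≤ p.H.diam := by
    refine SimpleGraph.dist_le_diam ?_
    exact (SimpleGraph.connected_iff_ediam_ne_top).1 hconn
  obtain ⟨w, hw⟩ := (hconn (f ⟨s, hs⟩) (f ⟨t, ht⟩)).exists_walk_length_eq_dist
  have h1 := p.walk_le w s hs t ht rfl rfl
  omega

end SP

end Pool.Agent.helper57.AD
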