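import Pool.Agent.helper57.AD.CyclicCells

set_option autoImplicit false

/-!
# The average diameter of the cyclic arrangement
-/

namespace Pool.Agent.helper57.AD

open Finset Pool.Agent.helper87.ArrD3 Polynomial

open Classical in
theorem main_lower {n d : ℕ} (hd : 0 < d) (hdn : d < n) {C P : Finset (Fin n) → Set (Fin d → ℝ)}
    (hC : ∀ S, C S = {x | ∀ i, (i ∈ S → cb n d i < ∑ j, ca n d i j * x j) ∧
                          (i ∉ S → ∑ j, ca n d i j * x j < cb n d i)})
    (hP : ∀ S, P S = {x | ∀ i, (i ∈ S → cb n d i ≤ ∑ j, ca n d i j * x j) ∧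
                          (i ∉ S → ∑ j, ca n d i j * x j ≤ cb n d i)}) :
    d * (n - d) * (Finset.univ.filter
        (fun S : Finset (Fin n) => (C S).Nonempty ∧ Bornology.IsBounded (C S))).card ≤
    (n - 1) * ∑ S ∈ Finset.univ.filter
          (fun S : Finset (Fin n) => (C S).Nonempty ∧ Bornology.IsBounded (C S)),
        (SimpleGraph.fromRel
          (fun v w : Set.extremePoints ℝ (P S) =>
            IsExtreme ℝ (P S) (segment ℝ (v : Fin d → ℝ) (w : Fin d → ℝ)))).diam := by
  rw [filter_eq (c_h1 n d) (c_h2 n d) hC hdn.le]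
  set M := mkArr hdn.le (ca n d) (cb n d) (c_h1 n d) (c_h2 n d) with hM
  have hdiam : ∀ T ∈ powersetCard d (range (n - 1)),
      (T.filter (fun g => ∀ g' ∈ T, g ≠ g' + 1)).card ≤ (SimpleGraph.fromRel
          (fun v w : Set.extremePoints ℝ (P (ST n T)) =>
            IsExtreme ℝ (P (ST n T)) (segment ℝ (v : Fin d → ℝ) (w : Fin d → ℝ)))).diam := by
    intro T hT
    obtain ⟨hT1, hT2⟩ := mem_powersetCard.1 hT
    have hm : ST n T ∈ M.bcells := ST_mem hdn.le hT1 hT2
    rw [P_eq (c_h1 n d) (c_h2 n d) hP hdn.le hm]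
    exact diam_ge hdn.le hd hT1 hT2 hm
  have hsub : (powersetCard d (range (n - 1))).image (ST n) ⊆ M.bcells := by
    intro S hS
    obtain ⟨T, hT, rfl⟩ := mem_image.1 hS
    obtain ⟨hT1, hT2⟩ := mem_powersetCard.1 hT
    exact ST_mem hdn.le hT1 hT2
  have hsum : ∑ T ∈ powersetCard d (range (n - 1)), (T.filter (fun g => ∀ g' ∈ T, g ≠ g' + 1)).card ≤
      ∑ S ∈ M.bcells, (SimpleGraph.fromRel
          (fun v w : Set.extremePoints ℝ (P S) =>
            IsExtreme ℝ (P S) (segment ℝ (v : Fin d → ℝ) (w : Fin d → ℝ)))).diam := by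
    refine (sum_le_sum hdiam).trans ?_
    rw [← sum_image (s := powersetCard d (range (n - 1))) (g := ST n) (f := fun S =>
      (SimpleGraph.fromRel (fun v w : Set.extremePoints ℝ (P S) =>
            IsExtreme ℝ (P S) (segment ℝ (v : Fin d → ℝ) (w : Fin d → ℝ)))).diam)]
    · exact sum_le_sum_of_subset hsub
    · intro T hT T' hT' h
      rw [mem_coe, mem_powersetCard] at hT hT'
      exact ST_inj hT.1 hT'.1 h
  have hruns := (sum_runs hd (show d ≤ n - 1 by omega)).trans hsum
  rw [M.card_bcells, Fintype.card_fin]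
  obtain ⟨m, rfl⟩ : ∃ m, n = m + 2 := ⟨n - 2, by omega⟩
  obtain ⟨k, rfl⟩ : ∃ k, d = k + 1 := ⟨d - 1, by omega⟩
  have e1 : m + 2 - 1 = m + 1 := by omega
  have e2 : (m + 1) * m.choose k = (m + 1).choose (k + 1) * (k + 1) :=
    Nat.add_one_mul_choose_eq m k
  rw [e1] at hruns ⊢
  simp only [Nat.add_sub_cancel] at hruns
  have e3 : m + 1 + 1 - (k + 1) = m + 2 - (k + 1) := by omega
  rw [e3] at hruns
  calc (k + 1) * (m + 2 - (k + 1)) * (m + 1).choose (k + 1)
      = (m + 2 - (k + 1)) * ((m + 1).choose (k + 1) * (k + 1)) := by ring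
    _ = (m + 1) * ((m + 2 - (k + 1)) * m.choose k) := by rw [← e2]; ring
    _ ≤ _ := Nat.mul_le_mul_left _ hruns

end Pool.Agent.helper57.AD
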