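import Mathlib

set_option autoImplicit false

/-!
# A binomial inequality
-/

namespace Pool.Agent.helper57.AD

open Finset

lemma rsum (d : ℕ) : ∀ x : ℚ, (d : ℚ) + 1 < x →
    ∑ k ∈ range (d + 1), (d.choose k : ℚ) * (1 / ((x - k) * (x - k - 1))) ≤
      2 ^ d / (x * (x - d - 1)) := by
  induction d with
  | zero =>
    intro x hx
    simp
  | succ d ih =>
    intro x hx
    push_cast at hx
    have h := Finset.sum_choose_succ_mul (R := ℚ) (fun i _ => 1 / ((x - i) * (x - i - 1))) d
    rw [h]
    have h1 := ih x (by linarith)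
    have h2 := ih (x - 1) (by linarith)
    have h3 : ∑ k ∈ range (d + 1), (d.choose k : ℚ) * (1 / ((x - ((k + 1 : ℕ) : ℚ)) *
        (x - ((k + 1 : ℕ) : ℚ) - 1))) =
        ∑ k ∈ range (d + 1), (d.choose k : ℚ) * (1 / ((x - 1 - k) * (x - 1 - k - 1))) := by
      apply sum_congr rfl
      intro k _
      push_cast
      rw [show x - ((k : ℚ) + 1) = x - 1 - k by ring]
    rw [h3]
    refine (add_le_add h1 h2).trans ?_
    push_cast
    have hd : (0 : ℚ) ≤ d := Nat.cast_nonneg d
    have p1 : 0 < x := by linarith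
    have p2 : 0 < x - d - 1 := by linarith
    have p3 : 0 < x - 1 := by linarith
    have p4 : 0 < x - ((d : ℚ) + 1) - 1 := by linarith
    have p5 : 0 < x - 1 - d - 1 := by linarith
    rw [pow_succ, div_add_div _ _ (by positivity) (by positivity), div_le_div_iff₀ (by positivity)
      (by positivity)]
    have h2d : (0 : ℚ) < 2 ^ d := by positivity
    -- remove the power of two
    have key : ((x - 1) * (x - 1 - d - 1) + x * (x - d - 1)) * (x * (x - (↑d + 1) - 1)) ≤
        2 * (x * (x - d - 1) * ((x - 1) * (x - 1 - d - 1))) := by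
      have e1 : x - 1 - d - 1 = x - (↑d + 1) - 1 := by ring
      rw [e1]
      have e2 : (x - 1) * (x - (↑d + 1) - 1) + x * (x - d - 1) ≤ 2 * ((x - 1) * (x - d - 1)) := by
        nlinarith
      have e3 : 0 ≤ x * (x - (↑d + 1) - 1) := by positivity
      nlinarith [mul_le_mul_of_nonneg_right e2 e3]
    have := mul_le_mul_of_nonneg_left key h2d.le
    calc (2 ^ d * ((x - 1) * (x - 1 - ↑d - 1)) + x * (x - ↑d - 1) * 2 ^ d) * (x * (x - (↑d + 1) - 1))
        = 2 ^ d * (((x - 1) * (x - 1 - d - 1) + x * (x - d - 1)) * (x * (x - (↑d + 1) - 1))) := by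
          ring
      _ ≤ 2 ^ d * (2 * (x * (x - d - 1) * ((x - 1) * (x - 1 - d - 1)))) := this
      _ = _ := by ring

open Nat in
lemma term_eq (k j m : ℕ) : (((k + j + m + 2).choose k * (j + m).choose j : ℕ) : ℚ) =
    ((k + j + m + 2)! : ℚ) / ((k + j)! * m !) * (((k + j).choose k : ℚ) *
      (1 / (((j : ℚ) + m + 2) * ((j : ℚ) + m + 1)))) := by
  have h1 : ((k + j + m + 2).choose k : ℚ) = ((k + j + m + 2)! : ℚ) / (k ! * (j + m + 2)!) := by
    have := Nat.cast_add_choose ℚ (a := k) (b := j + m + 2)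
    have e : k + (j + m + 2) = k + j + m + 2 := by ring
    rw [e] at this
    exact this
  have h2 : ((j + m).choose j : ℚ) = ((j + m)! : ℚ) / (j ! * m !) := Nat.cast_add_choose ℚ
  have h3 : ((k + j).choose k : ℚ) = ((k + j)! : ℚ) / (k ! * j !) := Nat.cast_add_choose ℚ
  have h4 : ((j + m + 2)! : ℚ) = ((j : ℚ) + m + 2) * (((j : ℚ) + m + 1) * (j + m)!) := by
    rw [Nat.factorial_succ, Nat.factorial_succ]
    push_cast
    ring
  push_cast
  rw [h1, h2, h3, h4]
  have a1 : ((j + m)! : ℚ) ≠ 0 := by exact_mod_cast (j + m).factorial_ne_zero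
  have a2 : (k ! : ℚ) ≠ 0 := by exact_mod_cast k.factorial_ne_zero
  have a3 : (j ! : ℚ) ≠ 0 := by exact_mod_cast j.factorial_ne_zero
  have a4 : (m ! : ℚ) ≠ 0 := by exact_mod_cast m.factorial_ne_zero
  have a5 : ((k + j)! : ℚ) ≠ 0 := by exact_mod_cast (k + j).factorial_ne_zero
  have a6 : ((j : ℚ) + m + 2) ≠ 0 := by positivity
  have a7 : ((j : ℚ) + m + 1) ≠ 0 := by positivity
  field_simp

/-- the numerical inequality -/
theorem num_ineq {n d : ℕ} (hdn : d < n) :
    ∑ k ∈ range (d + 1), n.choose k * (n - k - 2).choose (d - k) ≤ 2 ^ d * (n - 1).choose d := by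
  by_cases h1 : n = d + 1
  · subst h1
    rw [Nat.add_sub_cancel, Nat.choose_self, mul_one, sum_range_succ]
    have h2 : ∑ k ∈ range d, (d + 1).choose k * (d + 1 - k - 2).choose (d - k) = 0 := by
      apply sum_eq_zero
      intro k hk
      rw [mem_range] at hk
      rw [Nat.choose_eq_zero_of_lt (by omega : d + 1 - k - 2 < d - k), mul_zero]
    rw [h2, zero_add, Nat.sub_self, Nat.choose_zero_right, mul_one]
    have h3 : (d + 1).choose d = d + 1 := Nat.choose_succ_self_right d
    rw [h3]
    have := Nat.lt_two_pow_self (n := d)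
    omega
  · obtain ⟨m, rfl⟩ : ∃ m, n = d + m + 2 := ⟨n - d - 2, by omega⟩
    have hcast : ((∑ k ∈ range (d + 1), (d + m + 2).choose k * (d + m + 2 - k - 2).choose (d - k) : ℕ) : ℚ)
        ≤ ((2 ^ d * (d + m + 2 - 1).choose d : ℕ) : ℚ) := by
      rw [Nat.cast_sum]
      have ht : ∀ k ∈ range (d + 1),
          (((d + m + 2).choose k * (d + m + 2 - k - 2).choose (d - k) : ℕ) : ℚ) =
          ((d + m + 2).factorial : ℚ) / (d.factorial * m.factorial) * ((d.choose k : ℚ) *
            (1 / ((((d : ℚ) + m + 2) - k) * (((d : ℚ) + m + 2) - k - 1)))) := by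
        intro k hk
        rw [mem_range] at hk
        obtain ⟨j, rfl⟩ : ∃ j, d = k + j := ⟨d - k, by omega⟩
        have e1 : k + j + m + 2 - k - 2 = j + m := by omega
        have e2 : k + j - k = j := by omega
        rw [e1, e2, term_eq]
        push_cast
        have e3 : (k : ℚ) + j + m + 2 - k = (j : ℚ) + m + 2 := by ring
        have e4 : (j : ℚ) + m + 2 - 1 = (j : ℚ) + m + 1 := by ring
        rw [e3, e4]
      rw [sum_congr rfl ht, ← mul_sum]
      have h2 := rsum d ((d : ℚ) + m + 2) (by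
        have : (0 : ℚ) ≤ m := Nat.cast_nonneg m
        linarith)
      have hc : (0 : ℚ) ≤ ((d + m + 2).factorial : ℚ) / (d.factorial * m.factorial) := by positivity
      refine (mul_le_mul_of_nonneg_left h2 hc).trans (le_of_eq ?_)
      have e5 : d + m + 2 - 1 = d + (m + 1) := by omega
      rw [e5]
      push_cast
      rw [Nat.cast_add_choose ℚ (a := d) (b := m + 1)]
      have e6 : ((d + m + 2).factorial : ℚ) = ((d : ℚ) + m + 2) * ((d + (m + 1)).factorial : ℚ) := by
        have : d + m + 2 = (d + (m + 1)) + 1 := by ring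
        rw [this, Nat.factorial_succ]
        push_cast
        ring
      have e7 : ((m + 1).factorial : ℚ) = ((m : ℚ) + 1) * (m.factorial : ℚ) := by
        rw [Nat.factorial_succ]
        push_cast
        ring
      rw [e6, e7]
      have a1 : (d.factorial : ℚ) ≠ 0 := by exact_mod_cast d.factorial_ne_zero
      have a2 : (m.factorial : ℚ) ≠ 0 := by exact_mod_cast m.factorial_ne_zero
      have a3 : ((m : ℚ) + 1) ≠ 0 := by positivity
      have a4 : ((d : ℚ) + m + 2) ≠ 0 := by positivity
      have e8 : (d : ℚ) + m + 2 - d - 1 = (m : ℚ) + 1 := by ring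
      rw [e8]
      field_simp
    exact_mod_cast hcast

end Pool.Agent.helper57.AD
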