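import Pool.Agent.helper57.AD.Flat
import Pool.Agent.helper57.AD.Num

set_option autoImplicit false

/-!
# The theorems in the form of the frozen statement
-/

namespace Pool.Agent.helper57.AD

open Finset Pool.Agent.helper87.ArrD3

lemma SP.ncard_extreme {ι : Type} [Fintype ι] [DecidableEq ι] {d : ℕ} (p : SP ι d) :
    (Set.extremePoints ℝ p.P).ncard = p.Vx.card := by
  classical
  have h : Set.extremePoints ℝ p.P = ((p.Vx.image p.pt : Finset (Fin d → ℝ)) : Set (Fin d → ℝ)) := by
    ext z
    rw [coe_image]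
    constructor
    · intro hz
      obtain ⟨s, hs, rfl⟩ := p.exists_of_extreme hz
      exact ⟨s, hs, rfl⟩
    · rintro ⟨s, hs, rfl⟩
      exact p.pt_mem_extreme hs
  rw [h, Set.ncard_coe_finset, card_image_of_injOn]
  intro s hs t ht hst
  exact p.pt_inj hs ht hst

section

variable {n d : ℕ} {a : Fin n → Fin d → ℝ} {b : Fin n → ℝ}
  (h1 : ∀ s : Finset (Fin n), s.card = d →
        ∃! x : Fin d → ℝ, ∀ i ∈ s, ∑ j, a i j * x j = b i)
  (h2 : ∀ s : Finset (Fin n), s.card = d + 1 →
        ¬ ∃ x : Fin d → ℝ, ∀ i ∈ s, ∑ j, a i j * x j = b i)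
  {C P : Finset (Fin n) → Set (Fin d → ℝ)}
  (hC : ∀ S, C S = {x | ∀ i, (i ∈ S → b i < ∑ j, a i j * x j) ∧
                          (i ∉ S → ∑ j, a i j * x j < b i)})
  (hP : ∀ S, P S = {x | ∀ i, (i ∈ S → b i ≤ ∑ j, a i j * x j) ∧
                          (i ∉ S → ∑ j, a i j * x j ≤ b i)})

lemma mk_g (hdn : d ≤ n) (i : Fin n) (x : Fin d → ℝ) :
    (mkArr hdn a b h1 h2).g i x = ∑ j, a i j * x j - b i := rfl

include hC in
open Classical in
lemma filter_eq (hdn : d ≤ n) : (Finset.univ.filter
      (fun S : Finset (Fin n) => (C S).Nonempty ∧ Bornology.IsBounded (C S))) =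
      (mkArr hdn a b h1 h2).bcells := by
  set M := mkArr hdn a b h1 h2 with hM
  have hg : ∀ i x, M.g i x = ∑ j, a i j * x j - b i := fun i x => rfl
  have hCc : ∀ S, C S = M.cell S := by
    intro S
    rw [hC]
    ext x
    simp only [Set.mem_ofPred_eq, Arr.cell, hg, Arr.sg]
    refine forall_congr' fun i => ?_
    by_cases hi : i ∈ S
    · simp only [hi, true_implies, not_true_eq_false, false_implies, and_true, if_true, one_mul,
        sub_pos]
    · simp only [hi, false_implies, not_false_eq_true, true_implies, true_and, if_false,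
        neg_one_mul, neg_sub, sub_pos]
  ext S
  rw [mem_filter, M.mem_bcells, hCc]
  simp only [mem_univ, true_and]
  constructor
  · rintro ⟨h3, h4⟩
    exact ⟨M.cell_nonempty_iff.1 h3, (M.bounded_iff h3).1 h4⟩
  · rintro ⟨h3, h4⟩
    have h5 := M.cell_nonempty_iff.2 h3
    exact ⟨h5, (M.bounded_iff h5).2 h4⟩

include hP in
lemma P_eq (hdn : d ≤ n) {S : Finset (Fin n)} (hS : S ∈ (mkArr hdn a b h1 h2).bcells) :
    P S = (toSP (mkArr hdn a b h1 h2) hS).P := by
  rw [hP]
  ext x
  simp only [Set.mem_ofPred_eq, SP.P, toSP_g, mk_g, Arr.sg]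
  refine forall_congr' fun i => ?_
  by_cases hi : i ∈ S
  · simp only [hi, true_implies, not_true_eq_false, false_implies, and_true, if_true, one_mul,
      sub_nonneg]
  · simp only [hi, false_implies, not_false_eq_true, true_implies, true_and, if_false,
      neg_one_mul, neg_sub, sub_nonneg]

include hP in
open Classical in
/-- the hyperplanes which contain a facet are walls -/
lemma facets_le (hd : 0 < d) (hdn : d ≤ n) (S : Finset (Fin n)) :
    (univ.filter (fun i : Fin n => ∃ x ∈ P S, ∑ j, a i j * x j = b i ∧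
      ∀ k, k ≠ i → ∑ j, a k j * x j ≠ b k)).card ≤ (mkArr hdn a b h1 h2).deg S := by
  set M := mkArr hdn a b h1 h2 with hM
  have hg : ∀ i x, M.g i x = ∑ j, a i j * x j - b i := fun i x => rfl
  unfold Arr.deg
  apply card_le_card
  intro i hi
  rw [mem_filter] at hi ⊢
  refine ⟨mem_univ _, ?_⟩
  obtain ⟨_, x, hx, hxi, hxk⟩ := hi
  rw [hP] at hx
  have hx' : ∀ k, 0 ≤ Arr.sg S k * M.g k x := by
    intro k
    have h3 := hx k
    rw [hg]
    unfold Arr.sg
    split_ifs with h4
    · rw [one_mul, sub_nonneg]; exact h3.1 h4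
    · rw [neg_one_mul, neg_sub, sub_nonneg]; exact h3.2 h4
  have hxE : ∀ k ∈ univ.erase i, 0 < Arr.sg S k * M.g k x := by
    intro k hk
    have hki : k ≠ i := ne_of_mem_erase hk
    refine lt_of_le_of_ne (hx' k) (Ne.symm (mul_ne_zero ?_ ?_))
    · unfold Arr.sg; split_ifs <;> norm_num
    · rw [hg]; exact sub_ne_zero.2 (hxk k hki)
  have hgi : M.g i x = 0 := by rw [hg, hxi, sub_self]
  obtain ⟨v, hv⟩ := M.solve (s := {i}) (by rw [card_singleton]; exact hd) (fun _ => - Arr.sg S i)
  have hvi : M.A i v = - Arr.sg S i := hv i (mem_singleton_self i)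
  obtain ⟨r, hr, hr2⟩ := M.exists_small hxE v
  rw [M.mem_cells]
  refine ⟨x + r • v, by simp, fun k _ => ?_⟩
  by_cases hk : k = i
  · subst hk
    have h5 : Arr.sg (Arr.flip k S) k = - Arr.sg S k := by
      unfold Arr.flip Arr.sg
      by_cases h6 : k ∈ S
      · rw [if_pos h6, if_neg (notMem_erase _ _), if_pos h6]
      · rw [if_neg h6, if_pos (mem_insert_self _ _), if_neg h6]; norm_num
    rw [h5, Arr.g_add, hgi, hvi, zero_add]
    have h7 := Arr.sg_mul_self S k
    nlinarith
  · have h3 := hr2 k (mem_erase.2 ⟨hk, mem_univ _⟩)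
    have h4 : Arr.sg (Arr.flip i S) k = Arr.sg S k := by
      have h7 : k ∈ Arr.flip i S ↔ k ∈ S := by
        unfold Arr.flip
        split_ifs with h5
        · rw [mem_erase]; exact ⟨fun h => h.2, fun h => ⟨hk, h⟩⟩
        · rw [mem_insert]; exact ⟨fun h => h.resolve_left hk, Or.inr⟩
      unfold Arr.sg
      by_cases h8 : k ∈ S
      · rw [if_pos h8, if_pos (h7.2 h8)]
      · rw [if_neg h8, if_neg (fun h => h8 (h7.1 h))]
    rw [h4]
    exact h3

include h1 h2 hC hP in
open Classical in
/-- **The average number of facets of the bounded cells is at most `2 d`.** -/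
theorem main_facets (hd : 0 < d) (hdn : d < n) :
    ∑ S ∈ Finset.univ.filter
        (fun S : Finset (Fin n) => (C S).Nonempty ∧ Bornology.IsBounded (C S)),
      (univ.filter (fun i : Fin n => ∃ x ∈ P S, ∑ j, a i j * x j = b i ∧
        ∀ k, k ≠ i → ∑ j, a k j * x j ≠ b k)).card ≤
    2 * d * (Finset.univ.filter
        (fun S : Finset (Fin n) => (C S).Nonempty ∧ Bornology.IsBounded (C S))).card := by
  rw [filter_eq h1 h2 hC hdn.le]
  refine le_trans (sum_le_sum fun S _ => facets_le h1 h2 hP hd hdn.le S) ?_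
  exact sum_deg_le_two _ hd hdn

include h1 h2 hC hP in
open Classical in
/-- **The average number of vertices of the bounded cells is at most `2 ^ d`.** -/
theorem main_vertices (hdn : d < n) :
    ∑ S ∈ Finset.univ.filter
        (fun S : Finset (Fin n) => (C S).Nonempty ∧ Bornology.IsBounded (C S)),
      (Set.extremePoints ℝ (P S)).ncard ≤
    2 ^ d * (Finset.univ.filter
        (fun S : Finset (Fin n) => (C S).Nonempty ∧ Bornology.IsBounded (C S))).card := by
  rw [filter_eq h1 h2 hC hdn.le]
  set M := mkArr hdn.le a b h1 h2 with hM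
  rw [← sum_attach]
  have h3 : ∀ S ∈ M.bcells.attach, (Set.extremePoints ℝ (P S.1)).ncard =
      (toSP M S.2).Vx.card := by
    intro S _
    rw [P_eq h1 h2 hP hdn.le S.2, SP.ncard_extreme]
  rw [sum_congr rfl h3, M.card_bcells, Fintype.card_fin]
  exact (sum_vertices_le M hdn).trans (num_ineq hdn)

include h1 h2 hC hP in
open Classical in
/-- **Average diameter.** -/
theorem main_diam (hd : 0 < d) (hdn : d < n) :
    d * (∑ S ∈ Finset.univ.filter
          (fun S : Finset (Fin n) => (C S).Nonempty ∧ Bornology.IsBounded (C S)),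
        (SimpleGraph.fromRel
          (fun v w : Set.extremePoints ℝ (P S) =>
            IsExtreme ℝ (P S) (segment ℝ (v : Fin d → ℝ) (w : Fin d → ℝ)))).diam) +
      2 * (Finset.univ.filter
          (fun S : Finset (Fin n) => (C S).Nonempty ∧ Bornology.IsBounded (C S))).card ≤
      (2 ^ d + d) * (Finset.univ.filter
          (fun S : Finset (Fin n) => (C S).Nonempty ∧ Bornology.IsBounded (C S))).card := by
  have hv := main_vertices h1 h2 hC hP hdn
  rw [filter_eq h1 h2 hC hdn.le] at hv ⊢
  set M := mkArr hdn.le a b h1 h2 with hM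
  have hdiam : ∀ S ∈ M.bcells, d * (SimpleGraph.fromRel
          (fun v w : Set.extremePoints ℝ (P S) =>
            IsExtreme ℝ (P S) (segment ℝ (v : Fin d → ℝ) (w : Fin d → ℝ)))).diam + 2 ≤
      (Set.extremePoints ℝ (P S)).ncard + d := by
    intro S hS
    rw [P_eq h1 h2 hP hdn.le hS, SP.ncard_extreme]
    exact (toSP M hS).diam_le hd
  have h3 := sum_le_sum hdiam
  rw [sum_add_distrib, ← mul_sum, sum_add_distrib, sum_const, sum_const, smul_eq_mul,
    smul_eq_mul] at h3
  have h4 : (2 ^ d + d) * M.bcells.card = 2 ^ d * M.bcells.card + M.bcells.card * d := by ring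
  omega

include h1 h2 hC hP in
open Classical in
/-- **Average diameter and Hirsch excess.** -/
theorem main_excess (hd : 0 < d) (hdn : d < n) :
    ∑ S ∈ Finset.univ.filter
          (fun S : Finset (Fin n) => (C S).Nonempty ∧ Bornology.IsBounded (C S)),
        (SimpleGraph.fromRel
          (fun v w : Set.extremePoints ℝ (P S) =>
            IsExtreme ℝ (P S) (segment ℝ (v : Fin d → ℝ) (w : Fin d → ℝ)))).diam ≤
      d * (Finset.univ.filter
          (fun S : Finset (Fin n) => (C S).Nonempty ∧ Bornology.IsBounded (C S))).card +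
      ∑ S ∈ Finset.univ.filter
          (fun S : Finset (Fin n) => (C S).Nonempty ∧ Bornology.IsBounded (C S)),
        ((SimpleGraph.fromRel
          (fun v w : Set.extremePoints ℝ (P S) =>
            IsExtreme ℝ (P S) (segment ℝ (v : Fin d → ℝ) (w : Fin d → ℝ)))).diam + d -
          (univ.filter (fun i : Fin n => ∃ x ∈ P S, ∑ j, a i j * x j = b i ∧
            ∀ k, k ≠ i → ∑ j, a k j * x j ≠ b k)).card) := by
  have hf := main_facets h1 h2 hC hP hd hdn
  set B := Finset.univ.filter
    (fun S : Finset (Fin n) => (C S).Nonempty ∧ Bornology.IsBounded (C S)) with hB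
  have hpt : ∀ S ∈ B, (SimpleGraph.fromRel
          (fun v w : Set.extremePoints ℝ (P S) =>
            IsExtreme ℝ (P S) (segment ℝ (v : Fin d → ℝ) (w : Fin d → ℝ)))).diam + d ≤
      (univ.filter (fun i : Fin n => ∃ x ∈ P S, ∑ j, a i j * x j = b i ∧
            ∀ k, k ≠ i → ∑ j, a k j * x j ≠ b k)).card +
      ((SimpleGraph.fromRel
          (fun v w : Set.extremePoints ℝ (P S) =>
            IsExtreme ℝ (P S) (segment ℝ (v : Fin d → ℝ) (w : Fin d → ℝ)))).diam + d -
          (univ.filter (fun i : Fin n => ∃ x ∈ P S, ∑ j, a i j * x j = b i ∧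
            ∀ k, k ≠ i → ∑ j, a k j * x j ≠ b k)).card) := by
    intro S _
    omega
  have h3 := sum_le_sum hpt
  rw [sum_add_distrib, sum_const, smul_eq_mul, sum_add_distrib] at h3
  have h4 : 2 * d * B.card = d * B.card + B.card * d := by ring
  omega

end

end Pool.Agent.helper57.AD
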